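import Mathlib

/-!
Linear algebra for the contact lines of several forms: for suitable polynomials `η i j` every system
of remainders is attained by the sums `∑ j, (a j + b j X) η i j`.
-/

set_option autoImplicit false

namespace Pool.Agent.Helper568.LM

open Polynomial

theorem sum_pairs (r : ℂ[X]) (M : ℕ) : ∑ n ∈ Finset.range (2 * M), C (r.coeff n) * X ^ n =
    ∑ j : Fin M, (C (r.coeff (2 * (j : ℕ))) + X * C (r.coeff (2 * (j : ℕ) + 1))) *
      X ^ (2 * (j : ℕ)) := by
  rw [Fin.sum_univ_eq_sum_range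
    (fun j => (C (r.coeff (2 * j)) + X * C (r.coeff (2 * j + 1))) * X ^ (2 * j))]
  induction M with
  | zero => simp
  | succ M ih =>
    rw [Finset.sum_range_succ, ← ih, show 2 * (M + 1) = 2 * M + 1 + 1 by ring,
      Finset.sum_range_succ, Finset.sum_range_succ]
    ring

theorem eq_sum {r : ℂ[X]} {T n : ℕ} (h : T ≤ 2 * n) (hr : ∀ m, T ≤ m → r.coeff m = 0) :
    r = ∑ j : Fin n, (C (r.coeff (2 * (j : ℕ))) + X * C (r.coeff (2 * (j : ℕ) + 1))) *
      X ^ (2 * (j : ℕ)) := by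
  rw [← sum_pairs]
  apply Polynomial.ext
  intro m
  rw [Polynomial.finsetSum_coeff]
  simp only [Polynomial.coeff_C_mul, Polynomial.coeff_X_pow]
  by_cases hm : m < 2 * n
  · rw [Finset.sum_eq_single m]
    · simp
    · intro b _ hb
      rw [if_neg (Ne.symm hb), mul_zero]
    · intro h
      exact absurd (Finset.mem_range.2 hm) h
  · rw [hr m (by omega), Finset.sum_eq_zero]
    intro b hb
    rw [if_neg, mul_zero]
    have := Finset.mem_range.1 hb
    omega

/-- enough variables for the block -/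
theorem cover {D T n : ℕ} (hD : 1 ≤ D) (hT : T ≤ D + 1) (h : T ≤ 2 * n) :
    ∃ η : Fin n → ℂ[X], (∀ j, (η j).natDegree ≤ D - 1) ∧
      ∀ r : ℂ[X], (∀ m, T ≤ m → r.coeff m = 0) →
        ∃ a b : Fin n → ℂ, ∑ j, (C (a j) + X * C (b j)) * η j = r := by
  refine ⟨fun j => X ^ (min (2 * (j : ℕ)) (D - 1)), fun j => ?_, fun r hr => ?_⟩
  · rw [natDegree_X_pow]
    exact min_le_right _ _
  · refine ⟨fun j => if 2 * (j : ℕ) + 1 ≤ D then r.coeff (2 * (j : ℕ)) else 0,
      fun j => if 2 * (j : ℕ) + 1 ≤ D then r.coeff (2 * (j : ℕ) + 1) else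
        if 2 * (j : ℕ) = D then r.coeff D else 0, ?_⟩
    conv_rhs => rw [eq_sum h hr]
    refine Finset.sum_congr rfl fun j _ => ?_
    beta_reduce
    by_cases h1 : 2 * (j : ℕ) + 1 ≤ D
    · rw [if_pos h1, if_pos h1, min_eq_left (by omega)]
    · rw [if_neg h1, if_neg h1]
      by_cases h2 : 2 * (j : ℕ) = D
      · rw [if_pos h2, hr (2 * (j : ℕ) + 1) (by omega), min_eq_right (by omega)]
        have h3 : X ^ (2 * (j : ℕ)) = (X : ℂ[X]) * X ^ (D - 1) := by
          rw [← pow_succ']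
          congr 1
          omega
        rw [h3, h2]
        simp only [C_0]
        ring
      · rw [if_neg h2, hr (2 * (j : ℕ)) (by omega), hr (2 * (j : ℕ) + 1) (by omega)]
        simp

/-- one more parameter -/
theorem cover1 {D T n : ℕ} (hD : 1 ≤ D) (hT : T ≤ D + 1) (h : T ≤ 2 * n + 1) {α β : ℂ}
    (hαβ : α ≠ 0 ∨ β ≠ 0) (hn : β = 0 ∨ 1 ≤ n ∨ T = 0) :
    ∃ (η0 : ℂ[X]) (η : Fin n → ℂ[X]), η0.natDegree ≤ D - 1 ∧ (∀ j, (η j).natDegree ≤ D - 1) ∧
      ∀ r : ℂ[X], (∀ m, T ≤ m → r.coeff m = 0) →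
        ∃ (t : ℂ) (a b : Fin n → ℂ),
          C t * ((C α + X * C β) * η0) + ∑ j, (C (a j) + X * C (b j)) * η j = r := by
  rcases Nat.lt_or_ge (2 * n) T with h1 | h1
  · have hTn : T = 2 * n + 1 := by omega
    by_cases hβ : β = 0
    · subst hβ
      have hα : α ≠ 0 := by tauto
      refine ⟨1, fun j => X ^ (2 * (j : ℕ) + 1), by simp, fun j => ?_, fun r hr => ?_⟩
      · rw [natDegree_X_pow]
        have := j.2
        omega
      · refine ⟨r.coeff 0 / α, fun j => r.coeff (2 * (j : ℕ) + 1),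
          fun j => r.coeff (2 * (j : ℕ) + 2), ?_⟩
        have h2 : r = X * r.divX + C (r.coeff 0) := (X_mul_divX_add r).symm
        have h3 : r.divX = ∑ j : Fin n, (C (r.divX.coeff (2 * (j : ℕ))) +
            X * C (r.divX.coeff (2 * (j : ℕ) + 1))) * X ^ (2 * (j : ℕ)) := by
          refine eq_sum (T := 2 * n) le_rfl fun m hm => ?_
          rw [coeff_divX]
          exact hr _ (by omega)
        conv_rhs => rw [h2, h3]
        rw [add_comm]
        congr 1
        · rw [Finset.mul_sum]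
          refine Finset.sum_congr rfl fun j _ => ?_
          rw [coeff_divX, coeff_divX]
          ring
        · rw [C_0, mul_zero, add_zero, mul_one, ← C_mul, div_mul_cancel₀ _ hα]
    · have hn1 : 1 ≤ n := by
        rcases hn with h | h | h
        · exact absurd h hβ
        · exact h
        · omega
      refine ⟨X ^ (2 * n - 1), fun j => X ^ (2 * (j : ℕ)), ?_, fun j => ?_, fun r hr => ?_⟩
      · rw [natDegree_X_pow]
        omega
      · rw [natDegree_X_pow]
        have := j.2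
        omega
      · set t : ℂ := r.coeff (2 * n) / β with ht
        set s : ℂ[X] := r - C t * ((C α + X * C β) * X ^ (2 * n - 1)) with hs
        have hsc : ∀ m, 2 * n ≤ m → s.coeff m = 0 := by
          intro m hm
          have e1 : C t * ((C α + X * C β) * X ^ (2 * n - 1)) =
              C (t * α) * X ^ (2 * n - 1) + C (t * β) * X ^ (2 * n) := by
            have e2 : X ^ (2 * n) = (X : ℂ[X]) * X ^ (2 * n - 1) := by
              rw [← pow_succ']
              congr 1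
              omega
            rw [e2, C_mul, C_mul]
            ring
          rw [hs, e1, coeff_sub, coeff_add, coeff_C_mul, coeff_C_mul, coeff_X_pow, coeff_X_pow]
          rcases Nat.eq_or_lt_of_le hm with h2 | h2
          · subst h2
            rw [if_neg (by omega), if_pos rfl, ht]
            field_simp
            ring
          · rw [if_neg (by omega), if_neg (by omega), hr m (by omega)]
            ring
        refine ⟨t, fun j => s.coeff (2 * (j : ℕ)), fun j => s.coeff (2 * (j : ℕ) + 1), ?_⟩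
        rw [← eq_sum (T := 2 * n) le_rfl hsc, hs]
        ring
  · obtain ⟨η, hη, h2⟩ := cover hD hT h1
    refine ⟨0, η, by simp, hη, fun r hr => ?_⟩
    obtain ⟨a, b, hab⟩ := h2 r hr
    exact ⟨0, a, b, by rw [hab]; simp⟩

section block

variable {u : ℕ}

/-- the modulus of a block -/
noncomputable def hh (e : Fin u → ℕ) (ν : ℕ) : ℂ[X] :=
  ∏ l : Fin u, (1 + X * C (((l : ℕ) : ℂ) + 1 + ν)) ^ (e l - 1)

theorem lne (l ν : ℕ) : ((l : ℂ) + 1 + ν) ≠ 0 := by
  have : ((l + 1 + ν : ℕ) : ℂ) ≠ 0 := by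
    rw [Nat.cast_ne_zero]
    omega
  push_cast at this
  exact this

theorem lin_deg (l ν : ℕ) : (1 + X * C ((l : ℂ) + 1 + ν) : ℂ[X]).natDegree = 1 := by
  have : (1 + X * C ((l : ℂ) + 1 + ν) : ℂ[X]) = C ((l : ℂ) + 1 + ν) * X + C 1 := by
    rw [C_1]
    ring
  rw [this]
  exact natDegree_linear (lne l ν)

theorem lin_ne (l ν : ℕ) : (1 + X * C ((l : ℂ) + 1 + ν) : ℂ[X]) ≠ 0 := by
  intro h
  have := lin_deg l ν
  rw [h] at this
  simp at this

theorem hh_ne (e : Fin u → ℕ) (ν : ℕ) : hh e ν ≠ 0 :=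
  Finset.prod_ne_zero_iff.2 fun l _ => pow_ne_zero _ (lin_ne l ν)

theorem hh_deg (e : Fin u → ℕ) (ν : ℕ) : (hh e ν).natDegree = ∑ l, (e l - 1) := by
  unfold hh
  rw [natDegree_prod _ _ fun (l : Fin u) _ => pow_ne_zero _ (lin_ne (l : ℕ) ν)]
  refine Finset.sum_congr rfl fun l _ => ?_
  rw [natDegree_pow, lin_deg, mul_one]

/-- the monic modulus -/
noncomputable def hm (e : Fin u → ℕ) (ν : ℕ) : ℂ[X] := hh e ν * C (hh e ν).leadingCoeff⁻¹

theorem hm_monic (e : Fin u → ℕ) (ν : ℕ) : (hm e ν).Monic :=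
  monic_mul_leadingCoeff_inv (hh_ne e ν)

theorem hm_deg (e : Fin u → ℕ) (ν : ℕ) : (hm e ν).natDegree = ∑ l, (e l - 1) := by
  unfold hm
  rw [natDegree_mul_C (inv_ne_zero (leadingCoeff_ne_zero.2 (hh_ne e ν))), hh_deg]

/-- the number of conditions -/
def TT (z : Bool) (e : Fin u → ℕ) : ℕ := if z then ∑ l, e l + 1 else ∑ l, (e l - 1)

/-- the remainder -/
noncomputable def RR (z : Bool) (e : Fin u → ℕ) (ν : ℕ) : ℂ[X] →ₗ[ℂ] ℂ[X] :=
  if z then LinearMap.id else modByMonicHom (hm e ν)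

theorem RR_coeff {z : Bool} {e : Fin u → ℕ} {ν : ℕ} {p : ℂ[X]} (hp : p.natDegree ≤ ∑ l, e l)
    {n : ℕ} (hn : TT z e ≤ n) : (RR z e ν p).coeff n = 0 := by
  unfold RR
  unfold TT at hn
  split_ifs at hn ⊢
  · exact coeff_eq_zero_of_natDegree_lt (by change p.natDegree < n; omega)
  · change (p %ₘ hm e ν).coeff n = 0
    have h1 := degree_modByMonic_lt p (hm_monic e ν)
    apply coeff_eq_zero_of_degree_lt
    refine lt_of_lt_of_le h1 ?_
    rw [degree_eq_natDegree (hm_monic e ν).ne_zero, hm_deg]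
    exact_mod_cast hn

theorem RR_self {z : Bool} {e : Fin u → ℕ} {ν : ℕ} {p : ℂ[X]}
    (hp : ∀ n, TT z e ≤ n → p.coeff n = 0) : RR z e ν p = p := by
  unfold RR
  unfold TT at hp
  split_ifs at hp ⊢
  · rfl
  · change p %ₘ hm e ν = p
    rw [modByMonic_eq_self_iff (hm_monic e ν), degree_eq_natDegree (hm_monic e ν).ne_zero, hm_deg]
    rw [degree_lt_iff_coeff_zero]
    intro m hm
    exact hp m hm

/-- one block, no free parameter -/
theorem block0 {z : Bool} {e : Fin u → ℕ} (hD : 1 ≤ ∑ l, e l) {n : ℕ} (h : TT z e ≤ 2 * n)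
    (ν : ℕ) :
    ∃ η : Fin n → ℂ[X], (∀ j, (η j).natDegree ≤ ∑ l, e l - 1) ∧
      ∀ y : ℂ[X], y.natDegree ≤ ∑ l, e l → ∃ a b : Fin n → ℂ,
        RR z e ν (∑ j, (C (a j) + X * C (b j)) * η j) = RR z e ν y := by
  have hT : TT z e ≤ ∑ l, e l + 1 := by
    unfold TT
    split_ifs
    · exact le_rfl
    · have : ∑ l, (e l - 1) ≤ ∑ l, e l := Finset.sum_le_sum fun l _ => Nat.sub_le _ _
      omega
  obtain ⟨η, hη, h1⟩ := cover hD hT h
  refine ⟨η, hη, fun y hy => ?_⟩
  obtain ⟨a, b, hab⟩ := h1 (RR z e ν y) fun m hm => RR_coeff hy hm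
  exact ⟨a, b, by rw [hab, RR_self fun m hm => RR_coeff hy hm]⟩

/-- one block, one free parameter -/
theorem block1 {z : Bool} {e : Fin u → ℕ} (hD : 1 ≤ ∑ l, e l) {n : ℕ} (h : TT z e ≤ 2 * n + 1)
    {α β : ℂ} (hαβ : α ≠ 0 ∨ β ≠ 0) :
    ∃ (ν : ℕ) (η0 : ℂ[X]) (η : Fin n → ℂ[X]), η0.natDegree ≤ ∑ l, e l - 1 ∧
      (∀ j, (η j).natDegree ≤ ∑ l, e l - 1) ∧
      ∀ y : ℂ[X], y.natDegree ≤ ∑ l, e l → ∃ (t : ℂ) (a b : Fin n → ℂ),
        RR z e ν (C t * ((C α + X * C β) * η0) + ∑ j, (C (a j) + X * C (b j)) * η j) =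
          RR z e ν y := by
  have hT : TT z e ≤ ∑ l, e l + 1 := by
    unfold TT
    split_ifs
    · exact le_rfl
    · have : ∑ l, (e l - 1) ≤ ∑ l, e l := Finset.sum_le_sum fun l _ => Nat.sub_le _ _
      omega
  by_cases hsp : β = 0 ∨ 1 ≤ n ∨ TT z e = 0
  · obtain ⟨η0, η, hη0, hη, h1⟩ := cover1 hD hT h hαβ hsp
    refine ⟨0, η0, η, hη0, hη, fun y hy => ?_⟩
    obtain ⟨t, a, b, hab⟩ := h1 (RR z e 0 y) fun m hm => RR_coeff hy hm
    exact ⟨t, a, b, by rw [hab, RR_self fun m hm => RR_coeff hy hm]⟩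
  · push Not at hsp
    obtain ⟨hβ, hn, hT0⟩ := hsp
    have hn0 : n = 0 := by omega
    subst hn0
    have hT1 : TT z e = 1 := by omega
    have hz : z = false := by
      by_contra hz
      rw [Bool.not_eq_false] at hz
      subst hz
      unfold TT at hT1
      rw [if_pos rfl] at hT1
      omega
    subst hz
    have hsum : ∑ l, (e l - 1) = 1 := by
      unfold TT at hT1
      simpa using hT1
    -- the root of the modulus
    have hroot : ∀ ν, ∃ x : ℂ, hm e ν = X - C x := by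
      intro ν
      have h1 := hm_monic e ν
      have h2 := hm_deg e ν
      rw [hsum] at h2
      refine ⟨-(hm e ν).coeff 0, ?_⟩
      rw [C_neg, sub_neg_eq_add]
      exact h1.eq_X_add_C h2
    have hroot' : ∃ l0 : Fin u, ∀ ν, (hm e ν).eval (-1 / (((l0 : ℕ) : ℂ) + 1 + ν)) = 0 := by
      have h1 : ∃ l0 ∈ (Finset.univ : Finset (Fin u)), e l0 - 1 ≠ 0 := by
        by_contra hcon
        push Not at hcon
        rw [Finset.sum_eq_zero hcon] at hsum
        omega
      obtain ⟨l0, -, hl0⟩ := h1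
      refine ⟨l0, fun ν => ?_⟩
      unfold hm hh
      rw [eval_mul, eval_prod, Finset.prod_eq_zero (Finset.mem_univ l0), zero_mul]
      rw [eval_pow, eval_add, eval_one, eval_mul, eval_X, eval_C,
        div_mul_cancel₀ _ (lne (l0 : ℕ) ν), add_neg_cancel, zero_pow hl0]
    obtain ⟨l0, hl0⟩ := hroot'
    -- the choice of `ν`
    have hν : ∃ ν : ℕ, α * (((l0 : ℕ) : ℂ) + 1 + ν) ≠ β := by
      by_contra hcon
      push Not at hcon
      have h1 := hcon 0
      have h2 := hcon 1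
      have h3 : α = 0 := by
        push_cast at h1 h2
        linear_combination h2 - h1
      rw [h3, zero_mul] at h1
      exact hβ h1.symm
    obtain ⟨ν, hν⟩ := hν
    obtain ⟨x, hx⟩ := hroot ν
    have hx' : x = -1 / (((l0 : ℕ) : ℂ) + 1 + ν) := by
      have h1 := hl0 ν
      rw [hx, eval_sub, eval_X, eval_C] at h1
      linear_combination -h1
    have hne : α + x * β ≠ 0 := by
      intro h1
      apply hν
      have h2 := lne (l0 : ℕ) ν
      have h3 : x * (((l0 : ℕ) : ℂ) + 1 + ν) = -1 := by rw [hx', div_mul_cancel₀ _ h2]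
      linear_combination (((l0 : ℕ) : ℂ) + 1 + ν) * h1 - β * h3
    have hRR : ∀ p : ℂ[X], RR false e ν p = C (p.eval x) := by
      intro p
      unfold RR
      simp only [Bool.false_eq_true, if_false]
      change p %ₘ hm e ν = _
      rw [hx, modByMonic_X_sub_C_eq_C_eval]
    refine ⟨ν, 1, fun _ => 0, by simp, fun _ => by simp, fun y _ => ?_⟩
    refine ⟨y.eval x / (α + x * β), fun _ => 0, fun _ => 0, ?_⟩
    rw [hRR, hRR]
    congr 1
    simp only [eval_add, eval_mul, eval_C, eval_X, mul_one, Finset.univ_eq_empty,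
      Finset.sum_empty, add_zero]
    rw [div_mul_cancel₀ _ hne]

end block

end Pool.Agent.Helper568.LM
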