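import Pool.Agent.Helper568_LL.Curves

/-!
The auxiliary curves for several coverings of the line.
-/

set_option autoImplicit false

namespace Pool.Agent.Helper568.LM

open Pool.Agent.Helper568.LL

variable {S : ℕ}

/-- a nonconstant entire curve in the covering `v i ^ k i = ∏ (f + c i l g) ^ e i l` of the line -/
def AnS (k w : Fin S → ℕ) (e : Fin S → ℕ → ℕ) : Prop :=
  ∀ c : Fin S → ℕ → ℂ, ∃ (f g : ℂ → ℂ) (v : Fin S → ℂ → ℂ), Differentiable ℂ f ∧
    Differentiable ℂ g ∧ (∀ i, Differentiable ℂ (v i)) ∧ (∀ z, f z ≠ 0 ∨ g z ≠ 0) ∧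
    (∀ i z, v i z ^ k i = ∏ l ∈ Finset.range (w i), (f z + c i l * g z) ^ e i l) ∧
    ∃ z z', f z' * g z - g z' * f z ≠ 0

/-- infinitely many points of the covering over suitable fields -/
def ArS (k w : Fin S → ℕ) (e : Fin S → ℕ → ℕ) : Prop :=
  ∀ (kk : Type) [Field kk] [CharZero kk] [IsAlgClosed kk] (c : Fin S → ℕ → kk), ∃ T : Finset kk,
    ∀ L : Subfield kk, (∀ x ∈ T, x ∈ L) →
      {z : kk | z ∈ L ∧ ∀ i, ∃ v ∈ L, v ^ k i =
        ∏ l ∈ Finset.range (w i), (z + c i l) ^ e i l}.Infinite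

theorem anS_single {k : Fin S → ℕ} {i0 : Fin S} {w0 : ℕ} {e0 : Fin w0 → ℕ}
    (h : AnCurve (k i0) e0) : AnS k (fun i => if i = i0 then w0 else 0)
      (fun _ n => if h : n < w0 then e0 ⟨n, h⟩ else 0) := by
  intro c
  obtain ⟨f, g, v, hf, hg, hv, hfg, hvk, hne⟩ := h (fun l => c i0 l)
  refine ⟨f, g, fun i => if i = i0 then v else fun _ => 1, hf, hg, fun i => ?_, hfg,
    fun i z => ?_, hne⟩
  · beta_reduce
    by_cases hi : i = i0
    · rw [if_pos hi]
      exact hv
    · rw [if_neg hi]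
      exact differentiable_const _
  · by_cases hi : i = i0
    · subst hi
      simp only [if_true]
      rw [hvk, Finset.prod_range]
      refine Finset.prod_congr rfl fun l _ => ?_
      rw [dif_pos l.2]
    · simp only [if_neg hi]
      simp

theorem arS_single {k : Fin S → ℕ} {i0 : Fin S} {w0 : ℕ} {e0 : Fin w0 → ℕ}
    (h : ArCurve (k i0) e0) : ArS k (fun i => if i = i0 then w0 else 0)
      (fun _ n => if h : n < w0 then e0 ⟨n, h⟩ else 0) := by
  intro kk _ _ _ c
  obtain ⟨T, hT⟩ := h kk (fun l => c i0 l)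
  refine ⟨T, fun L hL => (hT L hL).mono ?_⟩
  rintro z ⟨hz, v, hv, hvk⟩
  refine ⟨hz, fun i => ?_⟩
  by_cases hi : i = i0
  · subst hi
    refine ⟨v, hv, ?_⟩
    simp only [if_true]
    rw [hvk, Finset.prod_range]
    refine Finset.prod_congr rfl fun l _ => ?_
    rw [dif_pos l.2]
  · refine ⟨1, L.one_mem, ?_⟩
    simp only [if_neg hi]
    simp

end Pool.Agent.Helper568.LM
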