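import Mathlib

/-!
The variety `G j (x) = 0`, `y i ^ k i = F i (x)`: its points, finiteness of the set of rational
points, and hyperbolicity. Here `x` are homogeneous coordinates of a projective space, the `G j` are
forms, `F i` is a form of degree `k i * m i`, and the variety is a subvariety of the weighted
projective space in which the coordinates `x j` have weight one and `y i` has weight `m i`. It is an
abelian covering of the complete intersection `G = 0`.
-/

set_option autoImplicit false

namespace Pool.Agent.Helper568.LM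

open MvPolynomial

variable {L : Type} [Field L] {M r S : ℕ}

/-- `(y, x)` are coordinates of a point of the variety `G j (x) = 0`, `y i ^ k i = F i (x)`. -/
def IsPt (k : Fin S → ℕ) (G : Fin r → MvPolynomial (Fin M) L) (F : Fin S → MvPolynomial (Fin M) L)
    (P : (Fin S → L) × (Fin M → L)) : Prop :=
  P.2 ≠ 0 ∧ (∀ j, eval P.2 (G j) = 0) ∧ ∀ i, P.1 i ^ k i = eval P.2 (F i)

/-- The two vectors are coordinates of the same point. -/
def Same (m : Fin S → ℕ) (P Q : (Fin S → L) × (Fin M → L)) : Prop :=
  ∃ c : L, c ≠ 0 ∧ (∀ i, Q.1 i = c ^ m i * P.1 i) ∧ ∀ j, Q.2 j = c * P.2 j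

/-- The variety has only finitely many points over the field `L`. -/
def FinitelyManyPoints (m k : Fin S → ℕ) (G : Fin r → MvPolynomial (Fin M) L)
    (F : Fin S → MvPolynomial (Fin M) L) : Prop :=
  ∃ T : Finset ((Fin S → L) × (Fin M → L)), ∀ P, IsPt k G F P → ∃ Q ∈ T, Same m Q P

/-- The variety is Brody hyperbolic: all entire curves in it are constant. -/
def Hyperbolic (m k : Fin S → ℕ) (G : Fin r → MvPolynomial (Fin M) ℂ)
    (F : Fin S → MvPolynomial (Fin M) ℂ) : Prop :=
  ∀ (y : ℂ → Fin S → ℂ) (x : ℂ → Fin M → ℂ), Differentiable ℂ y → Differentiable ℂ x →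
    (∀ z, IsPt k G F (y z, x z)) → ∀ z z', Same m (y z, x z) (y z', x z')

end Pool.Agent.Helper568.LM
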