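import Pool.Agent.Helper568_LL.Spec

/-!
Lines on which several forms have prescribed multiplicities: specialisation to the residue field of
a valuation ring, and descent to an algebraically closed subfield.
-/

set_option autoImplicit false

namespace Pool.Agent.Helper568.LM

open MvPolynomial Pool.Agent.Helper568.LL

/-- On some line each form `F i` is a constant times a product of powers of linear forms with the
exponents `e i l`; the constant is zero if `z i` is true. -/
def ContactS {Ω : Type} [Field Ω] {M : ℕ} {ι : Type} {u : ι → ℕ} (e : ∀ i, Fin (u i) → ℕ)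
    (z : ι → Bool) (F : ι → MvPolynomial (Fin M) Ω) : Prop :=
  ∃ (p q : Fin M → Ω) (α β : ∀ i, Fin (u i) → Ω) (Λ : ι → Ω),
    (∃ i j, p i * q j - p j * q i ≠ 0) ∧
    (∀ i l, α i l ≠ 0 ∨ β i l ≠ 0) ∧ (∀ i, z i = true → Λ i = 0) ∧
    ∀ (i : ι) (s t : Ω), eval (fun m => s * p m + t * q m) (F i) =
      Λ i * ∏ l, (α i l * s + β i l * t) ^ e i l

section spec

variable {Ω : Type} [Field Ω] (V : ValuationSubring Ω) {M : ℕ} {ι : Type} {u : ι → ℕ}
  {e : ∀ i, Fin (u i) → ℕ} {z : ι → Bool}

/-- **Specialisation.** -/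
theorem ContactS.spec [Infinite (IsLocalRing.ResidueField V)]
    {F : ι → MvPolynomial (Fin M) V}
    (h : ContactS e z (fun i => map (algebraMap V Ω) (F i))) :
    ContactS e z (fun i => map (IsLocalRing.residue V) (F i)) := by
  classical
  obtain ⟨p, q, α, β, Λ, ⟨i0, j0, h0⟩, hαβ, hΛz, hF⟩ := h
  obtain ⟨⟨i, j⟩, -, hmax⟩ := Finset.exists_max_image (Finset.univ : Finset (Fin M × Fin M))
    (fun ij => V.valuation (p ij.1 * q ij.2 - p ij.2 * q ij.1)) ⟨(i0, j0), Finset.mem_univ _⟩
  set Δ : Ω := p i * q j - p j * q i with hΔ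
  have hmax' : ∀ a b, V.valuation (p a * q b - p b * q a) ≤ V.valuation Δ := fun a b =>
    hmax (a, b) (Finset.mem_univ _)
  have hΔ0 : Δ ≠ 0 := by
    intro h1
    have h2 := hmax' i0 j0
    rw [h1, map_zero, le_zero_iff] at h2
    exact h0 ((Valuation.zero_iff _).1 h2)
  have hvΔ : V.valuation Δ ≠ 0 := (Valuation.ne_zero_iff _).2 hΔ0
  have hP : ∀ m, (q j * p m - p j * q m) / Δ ∈ V := by
    intro m
    rw [← V.valuation_le_one_iff, map_div₀]
    refine div_le_one_of_le₀ ?_ zero_le
    have := hmax' m j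
    have e1 : q j * p m - p j * q m = p m * q j - p j * q m := by ring
    rwa [e1]
  have hQ : ∀ m, (p i * q m - q i * p m) / Δ ∈ V := by
    intro m
    rw [← V.valuation_le_one_iff, map_div₀]
    refine div_le_one_of_le₀ ?_ zero_le
    have := hmax' i m
    have e1 : p i * q m - q i * p m = p i * q m - p m * q i := by ring
    rwa [e1]
  let P : Fin M → V := fun m => ⟨_, hP m⟩
  let Q : Fin M → V := fun m => ⟨_, hQ m⟩
  have hPi : P i = 1 := by
    apply Subtype.ext
    change (q j * p i - p j * q i) / Δ = 1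
    rw [div_eq_one_iff_eq hΔ0, hΔ]
    ring
  have hPj : P j = 0 := by
    apply Subtype.ext
    change (q j * p j - p j * q j) / Δ = 0
    rw [mul_comm, sub_self, zero_div]
  have hQi : Q i = 0 := by
    apply Subtype.ext
    change (p i * q i - q i * p i) / Δ = 0
    rw [mul_comm, sub_self, zero_div]
  have hQj : Q j = 1 := by
    apply Subtype.ext
    change (p i * q j - q i * p j) / Δ = 1
    rw [div_eq_one_iff_eq hΔ0, hΔ]
    ring
  have hlin : ∀ (r : ι) (l : Fin (u r)), ∃ (μ : Ω) (a b : V),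
      (α r l * q j - β r l * p j) / Δ = μ * a ∧
      (β r l * p i - α r l * q i) / Δ = μ * b ∧ (a = 1 ∨ b = 1) := by
    intro r l
    apply primitive
    by_contra hcon
    push Not at hcon
    obtain ⟨h1, h2⟩ := hcon
    rw [div_eq_zero_iff] at h1 h2
    have h3 : α r l * q j - β r l * p j = 0 := by tauto
    have h4 : β r l * p i - α r l * q i = 0 := by tauto
    rcases hαβ r l with h | h
    · apply h
      have : α r l * Δ = 0 := by
        rw [hΔ]
        linear_combination p i * h3 + p j * h4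
      exact (mul_eq_zero.1 this).resolve_right hΔ0
    · apply h
      have : β r l * Δ = 0 := by
        rw [hΔ]
        linear_combination q i * h3 + q j * h4
      exact (mul_eq_zero.1 this).resolve_right hΔ0
  choose μ a b hμa hμb hab using hlin
  -- the identity over `Ω`
  set Λ' : ι → Ω := fun r => Λ r * ∏ l, μ r l ^ e r l with hΛ'
  have hid : ∀ (r : ι) (s t : Ω), eval (fun m => s * (P m : Ω) + t * (Q m : Ω))
      (map (algebraMap V Ω) (F r)) =
      Λ' r * ∏ l, ((a r l : Ω) * s + (b r l : Ω) * t) ^ e r l := by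
    intro r s t
    have h1 := hF r ((q j * s - q i * t) / Δ) ((p i * t - p j * s) / Δ)
    have e1 : (fun m => (q j * s - q i * t) / Δ * p m + (p i * t - p j * s) / Δ * q m) =
        fun m => s * (P m : Ω) + t * (Q m : Ω) := by
      funext m
      change _ = s * ((q j * p m - p j * q m) / Δ) + t * ((p i * q m - q i * p m) / Δ)
      field_simp
      ring
    rw [e1] at h1
    rw [h1]
    simp only [hΛ']
    rw [mul_assoc, ← Finset.prod_mul_distrib]
    congr 1
    refine Finset.prod_congr rfl fun l _ => ?_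
    rw [← mul_pow]
    congr 1
    have e2 : μ r l * ((a r l : Ω) * s + (b r l : Ω) * t) =
        (μ r l * a r l) * s + (μ r l * b r l) * t := by ring
    rw [e2, ← hμa, ← hμb]
    field_simp
    ring
  have hres : ∀ r l, IsLocalRing.residue V (a r l) ≠ 0 ∨ IsLocalRing.residue V (b r l) ≠ 0 := by
    intro r l
    rcases hab r l with h | h
    · left; rw [h, map_one]; exact one_ne_zero
    · right; rw [h, map_one]; exact one_ne_zero
  have hz' : ∀ r, ∃ y : V, ∀ l, IsUnit (a r l + b r l * y) := by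
    intro r
    obtain ⟨zr, hz⟩ := exists_good _ _ (hres r)
    obtain ⟨y, rfl⟩ := IsLocalRing.residue_surjective zr
    refine ⟨y, fun l => ?_⟩
    have := hz l
    rw [← map_mul, ← map_add] at this
    exact (IsLocalRing.residue_ne_zero_iff_isUnit _).1 this
  choose y hunit using hz'
  have hW : ∀ r, IsUnit (∏ l, (a r l + b r l * y r) ^ e r l) := by
    intro r
    refine Finset.prod_induction _ IsUnit (fun _ _ => IsUnit.mul) isUnit_one fun l _ => ?_
    exact (hunit r l).pow _
  choose W hW' using hW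
  have hev : ∀ (r : ι) (x : Fin M → V), eval (fun m => (x m : Ω)) (map (algebraMap V Ω) (F r)) =
      ((eval x (F r) : V) : Ω) := by
    intro r x
    have := MvPolynomial.map_eval (algebraMap V Ω) x (F r)
    exact this.symm
  have hcoe : ∀ (r : ι) (s t : V), ((∏ l, (a r l * s + b r l * t) ^ e r l : V) : Ω) =
      ∏ l, ((a r l : Ω) * s + (b r l : Ω) * t) ^ e r l := by
    intro r s t
    change algebraMap V Ω _ = _
    rw [map_prod]
    rfl
  let L : ι → V := fun r => (eval (fun m => P m + y r * Q m) (F r)) * (↑(W r)⁻¹ : V)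
  have hL : ∀ r, (L r : Ω) = Λ' r := by
    intro r
    have h1 := hid r 1 (y r)
    have e1 : (fun m => (1 : Ω) * (P m : Ω) + (y r : Ω) * (Q m : Ω)) =
        fun m => ((P m + y r * Q m : V) : Ω) := by
      funext m
      rw [one_mul]
      rfl
    rw [e1, hev] at h1
    have e2 : (∏ l, ((a r l : Ω) * 1 + (b r l : Ω) * (y r)) ^ e r l) = ((W r : V) : Ω) := by
      rw [hW']
      change _ = algebraMap V Ω _
      rw [map_prod]
      refine Finset.prod_congr rfl fun l _ => ?_
      rw [mul_one]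
      rfl
    rw [e2] at h1
    change ((eval (fun m => P m + y r * Q m) (F r) : V) : Ω) * ((↑(W r)⁻¹ : V) : Ω) = Λ' r
    rw [h1, mul_assoc]
    have e3 : ((W r : V) : Ω) * ((↑(W r)⁻¹ : V) : Ω) = 1 := by
      change (((W r : V) * (↑(W r)⁻¹ : V) : V) : Ω) = 1
      rw [Units.mul_inv]
      rfl
    rw [e3, mul_one]
  have hV : ∀ (r : ι) (s t : V), eval (fun m => s * P m + t * Q m) (F r) =
      L r * ∏ l, (a r l * s + b r l * t) ^ e r l := by
    intro r s t
    apply Subtype.ext
    have h1 := hid r s t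
    have e1 : (fun m => (s : Ω) * (P m : Ω) + (t : Ω) * (Q m : Ω)) =
        fun m => ((s * P m + t * Q m : V) : Ω) := rfl
    rw [e1, hev, ← hL, ← hcoe] at h1
    exact h1
  refine ⟨fun m => IsLocalRing.residue V (P m), fun m => IsLocalRing.residue V (Q m),
    fun r l => IsLocalRing.residue V (a r l), fun r l => IsLocalRing.residue V (b r l),
    fun r => IsLocalRing.residue V (L r), ⟨i, j, ?_⟩, hres, ?_, ?_⟩
  · simp only []
    rw [hPi, hPj, hQi, hQj]
    simp
  · intro r hr
    have h1 : L r = 0 := by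
      apply Subtype.ext
      rw [hL]
      simp only [hΛ']
      rw [hΛz r hr, zero_mul]
      rfl
    simp only [h1, map_zero]
  · intro r s t
    obtain ⟨s, rfl⟩ := IsLocalRing.residue_surjective s
    obtain ⟨t, rfl⟩ := IsLocalRing.residue_surjective t
    have h1 := congrArg (IsLocalRing.residue V) (hV r s t)
    rw [MvPolynomial.map_eval, map_mul, map_prod] at h1
    convert h1 using 2
    · congr 1
    · refine Finset.prod_congr rfl fun l _ => ?_
      simp

end spec

section descent

variable {k κ : Type} [Field k] [Field κ] [Algebra k κ] {M : ℕ} {ι : Type} {u : ι → ℕ}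
  {e : ∀ i, Fin (u i) → ℕ} {z : ι → Bool}

/-- the unknowns -/
abbrev UnS (M : ℕ) {ι : Type} (u : ι → ℕ) : Type :=
  (Fin M ⊕ Fin M) ⊕ (((Σ i, Fin (u i)) × Fin 4) ⊕ (ι ⊕ Unit))

/-- **Descent.** -/
theorem ContactS.descend [Finite ι] [IsAlgClosed k] {F : ι → MvPolynomial (Fin M) k}
    (h : ContactS e z (fun i => map (algebraMap k κ) (F i))) : ContactS e z F := by
  classical
  obtain ⟨p, q, α, β, Λ, ⟨i, j, h0⟩, hαβ, hΛz, hF⟩ := h
  have hbez : ∀ r l, ∃ γ δ : κ, α r l * γ + β r l * δ = 1 := by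
    intro r l
    rcases hαβ r l with h | h
    · exact ⟨(α r l)⁻¹, 0, by rw [mul_inv_cancel₀ h]; ring⟩
    · exact ⟨0, (β r l)⁻¹, by rw [mul_inv_cancel₀ h]; ring⟩
  choose γ δ hγδ using hbez
  let vp : Fin M → UnS M u := fun m => Sum.inl (Sum.inl m)
  let vq : Fin M → UnS M u := fun m => Sum.inl (Sum.inr m)
  let va : ∀ r, Fin (u r) → UnS M u := fun r l => Sum.inr (Sum.inl (⟨r, l⟩, 0))
  let vb : ∀ r, Fin (u r) → UnS M u := fun r l => Sum.inr (Sum.inl (⟨r, l⟩, 1))
  let vc : ∀ r, Fin (u r) → UnS M u := fun r l => Sum.inr (Sum.inl (⟨r, l⟩, 2))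
  let vd : ∀ r, Fin (u r) → UnS M u := fun r l => Sum.inr (Sum.inl (⟨r, l⟩, 3))
  let vL : ι → UnS M u := fun r => Sum.inr (Sum.inr (Sum.inl r))
  let vm : UnS M u := Sum.inr (Sum.inr (Sum.inr ()))
  let v0 : UnS M u → κ := fun x => match x with
    | Sum.inl (Sum.inl m) => p m
    | Sum.inl (Sum.inr m) => q m
    | Sum.inr (Sum.inl (⟨r, l⟩, n)) => ![α r l, β r l, γ r l, δ r l] n
    | Sum.inr (Sum.inr (Sum.inl r)) => Λ r
    | Sum.inr (Sum.inr (Sum.inr _)) => (p i * q j - p j * q i)⁻¹
  have v0a : ∀ r l, v0 (va r l) = α r l := fun r l => rfl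
  have v0b : ∀ r l, v0 (vb r l) = β r l := fun r l => rfl
  have v0c : ∀ r l, v0 (vc r l) = γ r l := fun r l => rfl
  have v0d : ∀ r l, v0 (vd r l) = δ r l := fun r l => rfl
  have v0p : ∀ m, v0 (vp m) = p m := fun m => rfl
  have v0q : ∀ m, v0 (vq m) = q m := fun m => rfl
  have v0L : ∀ r, v0 (vL r) = Λ r := fun r => rfl
  have v0m : v0 vm = (p i * q j - p j * q i)⁻¹ := rfl
  let G : ι → k → k → MvPolynomial (UnS M u) k := fun r s t =>
    aeval (fun m => C s * X (vp m) + C t * X (vq m)) (F r) -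
      X (vL r) * ∏ l, (X (va r l) * C s + X (vb r l) * C t) ^ e r l
  let E1 : Set (MvPolynomial (UnS M u) k) :=
    {(X (vp i) * X (vq j) - X (vp j) * X (vq i)) * X vm - 1}
  let E2 : Set (MvPolynomial (UnS M u) k) :=
    {g | ∃ r l, g = X (va r l) * X (vc r l) + X (vb r l) * X (vd r l) - 1}
  let E3 : Set (MvPolynomial (UnS M u) k) := {g | ∃ r s t, g = G r s t}
  let E4 : Set (MvPolynomial (UnS M u) k) := {g | ∃ r, z r = true ∧ g = X (vL r)}
  have hG : ∀ (R : Type) [CommRing R] [Algebra k R] (w : UnS M u → R) (r : ι) (s t : k),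
      aeval w (G r s t) = aeval (fun m => algebraMap k R s * w (vp m) +
        algebraMap k R t * w (vq m)) (F r) -
        w (vL r) * ∏ l, (w (va r l) * algebraMap k R s + w (vb r l) * algebraMap k R t) ^ e r l := by
    intro R _ _ w r s t
    simp only [G, map_sub, map_mul, map_prod, map_pow, map_add, aeval_X]
    congr 1
    · have := MvPolynomial.comp_aeval_apply (f := fun m => C s * X (vp m) + C t * X (vq m))
        (aeval w : MvPolynomial (UnS M u) k →ₐ[k] R) (F r)
      rw [this]
      congr 1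
      congr 1
      funext m
      simp
    · simp
  have hI : ∀ g ∈ Ideal.span (E1 ∪ E2 ∪ E3 ∪ E4), aeval v0 g = 0 := by
    intro g hg
    have hle : Ideal.span (E1 ∪ E2 ∪ E3 ∪ E4) ≤
        RingHom.ker (aeval v0 : MvPolynomial (UnS M u) k →ₐ[k] κ) := by
      rw [Ideal.span_le]
      rintro x (((hx | ⟨r, l, rfl⟩) | ⟨r, s, t, rfl⟩) | ⟨r, hr, rfl⟩)
      · have hx' : x = (X (vp i) * X (vq j) - X (vp j) * X (vq i)) * X vm - 1 := hx
        subst hx'
        rw [SetLike.mem_coe, RingHom.mem_ker]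
        simp only [map_sub, map_mul, aeval_X, map_one, v0p, v0q, v0m]
        rw [mul_inv_cancel₀ h0, sub_self]
      · rw [SetLike.mem_coe, RingHom.mem_ker]
        simp only [map_sub, map_mul, map_add, aeval_X, map_one, v0a, v0b, v0c, v0d]
        rw [hγδ, sub_self]
      · rw [SetLike.mem_coe, RingHom.mem_ker, hG]
        have h1 := hF r (algebraMap k κ s) (algebraMap k κ t)
        rw [eval_map] at h1
        simp only [v0p, v0q, v0L, v0a, v0b]
        rw [aeval_def, h1, sub_self]
      · rw [SetLike.mem_coe, RingHom.mem_ker, aeval_X, v0L, hΛz r hr]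
    exact hle hg
  have hne : Ideal.span (E1 ∪ E2 ∪ E3 ∪ E4) ≠ ⊤ := by
    intro h
    have h1 := hI 1 (h ▸ Submodule.mem_top)
    rw [map_one] at h1
    exact one_ne_zero h1
  obtain ⟨m, hm, hle⟩ := Ideal.exists_le_maximal _ hne
  obtain ⟨w, hw⟩ := MvPolynomial.isMaximal_iff_eq_vanishingIdeal_singleton.1 hm
  have hz : ∀ g ∈ E1 ∪ E2 ∪ E3 ∪ E4, aeval w g = 0 := by
    intro g hg
    have h1 : g ∈ m := hle (Ideal.subset_span hg)
    rw [hw] at h1
    exact h1 w rfl
  refine ⟨fun m => w (vp m), fun m => w (vq m), fun r l => w (va r l), fun r l => w (vb r l),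
    fun r => w (vL r), ⟨i, j, ?_⟩, ?_, ?_, ?_⟩
  · have h1 := hz _ (Or.inl (Or.inl (Or.inl rfl)))
    simp only [map_sub, map_mul, aeval_X, map_one] at h1
    intro h2
    rw [h2] at h1
    simp at h1
  · intro r l
    have h1 := hz _ (Or.inl (Or.inl (Or.inr ⟨r, l, rfl⟩)))
    simp only [map_sub, map_mul, map_add, aeval_X, map_one] at h1
    by_contra hcon
    push Not at hcon
    rw [hcon.1, hcon.2] at h1
    simp at h1
  · intro r hr
    have h1 := hz _ (Or.inr ⟨r, hr, rfl⟩)
    rwa [aeval_X] at h1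
  · intro r s t
    have h1 := hz _ (Or.inl (Or.inr ⟨r, s, t, rfl⟩))
    rw [hG] at h1
    exact sub_eq_zero.1 h1

end descent

end Pool.Agent.Helper568.LM
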