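import Pool.Agent.Helper568_LM.Multi
import Pool.Agent.Helper568_LM.SpecS
import Pool.Agent.Helper568_LL.Dom

/-!
The special forms and the implicit function theorem for the contact lines of several forms.
-/

set_option autoImplicit false

namespace Pool.Agent.Helper568.LM

open MvPolynomial Filter Topology Pool.Agent.Helper568.LL

variable {N : ℕ} {ι : Type} {u : ι → ℕ}

/-- The unknowns: `a j`, `b j`, `c i l`, the constants and the parameter. -/
abbrev WS (N : ℕ) {ι : Type} (u : ι → ℕ) : Type :=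
  (Fin N ⊕ Fin N) ⊕ ((Σ i, Fin (u i)) ⊕ (ι ⊕ Unit))

def ja (j : Fin N) : WS N u := Sum.inl (Sum.inl j)
def jb (j : Fin N) : WS N u := Sum.inl (Sum.inr j)
def jc (i : ι) (l : Fin (u i)) : WS N u := Sum.inr (Sum.inl ⟨i, l⟩)
def jl (i : ι) : WS N u := Sum.inr (Sum.inr (Sum.inl i))
def jt : WS N u := Sum.inr (Sum.inr (Sum.inr ()))

/-- homogenisation -/
noncomputable def hz (N d : ℕ) (η : Polynomial ℂ) : MvPolynomial (Fin (N + 2)) ℂ :=
  ∑ n ∈ Finset.range (d + 1), C (η.coeff n) * X 0 ^ (d - n) * X 1 ^ n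

theorem hz_hom (d : ℕ) (η : Polynomial ℂ) : (hz N d η).IsHomogeneous d := by
  refine IsHomogeneous.sum _ _ _ fun n hn => ?_
  have h1 := Finset.mem_range.1 hn
  have := ((isHomogeneous_C (Fin (N + 2)) (η.coeff n)).mul
    (isHomogeneous_X_pow (R := ℂ) (0 : Fin (N + 2)) (d - n))).mul
    (isHomogeneous_X_pow (R := ℂ) (1 : Fin (N + 2)) n)
  convert this using 1
  omega

/-- the special forms -/
noncomputable def specialS (N : ℕ) (e : ∀ i, Fin (u i) → ℕ) (z : ι → Bool)
    (η : ι → Fin N → Polynomial ℂ) (ν : ι → ℕ) (i : ι) : MvPolynomial (Fin (N + 2)) ℂ :=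
  (if z i then 0 else ∏ l : Fin (u i), (X 0 + C (((l : ℕ) : ℂ) + 1 + ν i) * X 1) ^ e i l) +
    ∑ j : Fin N, X j.succ.succ * hz N (∑ l, e i l - 1) (η i j)

theorem specialS_hom {e : ∀ i, Fin (u i) → ℕ} (hD : ∀ i, 1 ≤ ∑ l, e i l) (z : ι → Bool)
    (η : ι → Fin N → Polynomial ℂ) (ν : ι → ℕ) (i : ι) :
    (specialS N e z η ν i).IsHomogeneous (∑ l, e i l) := by
  refine IsHomogeneous.add ?_ ?_
  · split_ifs
    · exact isHomogeneous_zero _ _ _
    · refine IsHomogeneous.prod _ _ _ fun l _ => ?_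
      have h1 : (X 0 + C (((l : ℕ) : ℂ) + 1 + ν i) * X 1 :
          MvPolynomial (Fin (N + 2)) ℂ).IsHomogeneous 1 := by
        refine (isHomogeneous_X _ _).add ?_
        have := (isHomogeneous_C (Fin (N + 2)) (((l : ℕ) : ℂ) + 1 + ν i)).mul
          (isHomogeneous_X ℂ (1 : Fin (N + 2)))
        simpa using this
      simpa using h1.pow (e i l)
  · refine IsHomogeneous.sum _ _ _ fun j _ => ?_
    have := (isHomogeneous_X ℂ (j.succ.succ : Fin (N + 2))).mul (hz_hom (N := N) (∑ l, e i l - 1) (η i j))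
    convert this using 1
    have := hD i
    omega

theorem specialS_line {R : Type} [CommRing R] [Algebra ℂ R] {e : ∀ i, Fin (u i) → ℕ}
    {z : ι → Bool} {η : ι → Fin N → Polynomial ℂ} {ν : ι → ℕ} (i : ι)
    (hη : ∀ j, (η i j).natDegree ≤ ∑ l, e i l - 1) (a b : Fin N → R) (x : R) :
    aeval (fun m => pp a m + x * qq b m) (specialS N e z η ν i) =
      (if z i then 0 else ∏ l : Fin (u i), (1 + x * algebraMap ℂ R (((l : ℕ) : ℂ) + 1 + ν i)) ^ e i l) +
        ∑ j : Fin N, (a j + x * b j) * Polynomial.aeval x (η i j) := by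
  have h0 : pp a 0 + x * qq b 0 = 1 := by simp [pp, qq]
  have h1 : pp a 1 + x * qq b 1 = x := by
    have e1 : pp a 1 = 0 := rfl
    have e2 : qq b 1 = 1 := rfl
    rw [e1, e2]
    ring
  have hj : ∀ j : Fin N, pp a j.succ.succ + x * qq b j.succ.succ = a j + x * b j := fun j => rfl
  unfold specialS
  rw [map_add, map_sum]
  congr 1
  · split_ifs
    · exact map_zero _
    · rw [map_prod]
      refine Finset.prod_congr rfl fun l _ => ?_
      simp only [map_pow, map_add, map_mul, aeval_X, aeval_C, h0, h1]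
      rw [mul_comm]
  · refine Finset.sum_congr rfl fun j _ => ?_
    rw [map_mul, aeval_X, hj]
    congr 1
    unfold hz
    rw [map_sum, Polynomial.aeval_eq_sum_range' (lt_of_le_of_lt (hη j) (Nat.lt_succ_self _))]
    refine Finset.sum_congr rfl fun n _ => ?_
    simp only [map_mul, map_pow, aeval_X, aeval_C, h0, h1, one_pow, mul_one]
    rw [Algebra.smul_def]

/-- the conditions -/
noncomputable def ΦS (e : ∀ i, Fin (u i) → ℕ) (z : ι → Bool)
    (G F : ι → MvPolynomial (Fin (N + 2)) ℂ) (i : ι) (j : ℕ) :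
    MvPolynomial (WS N u) ℂ :=
  (1 - X jt) * aeval (fun m => pp (fun k => X (ja k)) m +
        (j : MvPolynomial (WS N u) ℂ) * qq (fun k => X (jb k)) m) (G i) +
    X jt * aeval (fun m => pp (fun k => X (ja k)) m +
        (j : MvPolynomial (WS N u) ℂ) * qq (fun k => X (jb k)) m) (F i) -
    (if z i then 0 else X (jl i) * ∏ l : Fin (u i), (1 + (j : MvPolynomial (WS N u) ℂ) *
      X (jc i l)) ^ e i l)

theorem aeval_ΦS {R : Type} [CommRing R] [Algebra ℂ R] (e : ∀ i, Fin (u i) → ℕ) (z : ι → Bool)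
    (G F : ι → MvPolynomial (Fin (N + 2)) ℂ) (i : ι) (j : ℕ) (w : WS N u → R) :
    aeval w (ΦS e z G F i j) = (1 - w jt) *
      aeval (fun m => pp (fun k => w (ja k)) m + (j : R) * qq (fun k => w (jb k)) m) (G i) +
    w jt * aeval (fun m => pp (fun k => w (ja k)) m + (j : R) * qq (fun k => w (jb k)) m) (F i) -
    (if z i then 0 else w (jl i) * ∏ l : Fin (u i), (1 + (j : R) * w (jc i l)) ^ e i l) := by
  have key : ∀ H : MvPolynomial (Fin (N + 2)) ℂ,
      aeval w (aeval (fun m => pp (fun k => X (ja k)) m +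
        (j : MvPolynomial (WS N u) ℂ) * qq (fun k => X (jb k)) m) H) =
      aeval (fun m => pp (fun k => w (ja k)) m + (j : R) * qq (fun k => w (jb k)) m) H := by
    intro H
    have h1 := MvPolynomial.comp_aeval_apply
      (f := fun m => pp (fun k => X (ja k)) m +
        (j : MvPolynomial (WS N u) ℂ) * qq (fun k => X (jb k)) m)
      (aeval w : MvPolynomial (WS N u) ℂ →ₐ[ℂ] R) H
    rw [h1]
    congr 1
    congr 1
    funext m
    refine Fin.cases ?_ (fun m => Fin.cases ?_ (fun m => ?_) m) m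
    · simp [pp, qq]
    · simp [pp, qq]
    · simp [pp, qq]
  unfold ΦS
  rw [map_sub, map_add, map_mul, map_mul, map_sub, map_one, aeval_X, key, key]
  congr 1
  split_ifs
  · exact map_zero _
  · simp only [map_add, map_mul, map_one, aeval_X, map_prod, map_pow, map_natCast]

/-- the special solution -/
noncomputable def vS (N : ℕ) (u : ι → ℕ) (ν : ι → ℕ) : WS N u → ℂ
  | Sum.inl _ => 0
  | Sum.inr (Sum.inl l) => ((l.2 : ℕ) : ℂ) + 1 + ν l.1
  | Sum.inr (Sum.inr (Sum.inl _)) => 1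
  | Sum.inr (Sum.inr (Sum.inr _)) => 0

section dir

variable {e : ∀ i, Fin (u i) → ℕ} {z : ι → Bool} {η : ι → Fin N → Polynomial ℂ}
  {ν : ι → ℕ} (F : ι → MvPolynomial (Fin (N + 2)) ℂ)

theorem eval_dirS (i : ι) (hη : ∀ j, (η i j).natDegree ≤ ∑ l, e i l - 1) (j : ℕ)
    (w : WS N u → ℂ) (hw : w jt = 0) (ε : ℂ) :
    eval (vS N u ν + ε • w) (ΦS e z (specialS N e z η ν) F i j) =
      ((if z i then 0 else ∏ l : Fin (u i), (1 + (j : ℂ) * (((l : ℕ) : ℂ) + 1 + ν i)) ^ e i l) +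
        ∑ k : Fin N, (ε * (w (ja k) + (j : ℂ) * w (jb k))) * (η i k).eval (j : ℂ)) -
      (if z i then 0 else (1 + ε * w (jl i)) *
        ∏ l : Fin (u i), (1 + (j : ℂ) * ((((l : ℕ) : ℂ) + 1 + ν i) + ε * w (jc i l))) ^ e i l) := by
  have h1 := aeval_ΦS e z (specialS N e z η ν) F i j (vS N u ν + ε • w)
  rw [aeval_eq_eval] at h1
  rw [h1]
  have e1 : (vS N u ν + ε • w) jt = 0 := by
    change (0 : ℂ) + ε * w jt = 0
    rw [hw]
    ring
  have e2 : (vS N u ν + ε • w) (jl i) = 1 + ε * w (jl i) := rfl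
  have e3 : ∀ l, (vS N u ν + ε • w) (jc i l) =
      (((l : ℕ) : ℂ) + 1 + ν i) + ε * w (jc i l) := fun l => rfl
  rw [e1, e2, specialS_line i hη]
  simp only [e3]
  have e4 : ∀ k, (vS N u ν + ε • w) (ja k) + (j : ℂ) * (vS N u ν + ε • w) (jb k) =
      ε * (w (ja k) + (j : ℂ) * w (jb k)) := by
    intro k
    change ((0 : ℂ) + ε * w (ja k)) + (j : ℂ) * ((0 : ℂ) + ε * w (jb k)) = _
    ring
  simp only [e4]
  simp only [Polynomial.coe_aeval_eq_eval, sub_zero, one_mul, zero_mul, add_zero]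
  rfl

theorem hasDeriv_dirS (i : ι) (hη : ∀ j, (η i j).natDegree ≤ ∑ l, e i l - 1) (j : ℕ)
    (w : WS N u → ℂ) (hw : w jt = 0) :
    HasDerivAt (fun ε : ℂ => eval (vS N u ν + ε • w) (ΦS e z (specialS N e z η ν) F i j))
      ((∑ k : Fin N, (w (ja k) + (j : ℂ) * w (jb k)) * (η i k).eval (j : ℂ)) -
      (if z i then 0 else
        (w (jl i) * ∏ l : Fin (u i), (1 + (j : ℂ) * (((l : ℕ) : ℂ) + 1 + ν i)) ^ e i l +
        ∑ l : Fin (u i), (∏ l' ∈ Finset.univ.erase l,
          (1 + (j : ℂ) * (((l' : ℕ) : ℂ) + 1 + ν i)) ^ e i l') *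
          ((e i l : ℂ) * (1 + (j : ℂ) * (((l : ℕ) : ℂ) + 1 + ν i)) ^ (e i l - 1) *
            ((j : ℂ) * w (jc i l)))))) 0 := by
  classical
  simp only [eval_dirS F i hη j w hw]
  refine HasDerivAt.sub ?_ ?_
  · refine HasDerivAt.const_add _ ?_
    refine HasDerivAt.fun_sum fun k _ => ?_
    have h1 := (((hasDerivAt_id (0 : ℂ)).mul_const
      (w (ja k) + (j : ℂ) * w (jb k))).mul_const ((η i k).eval (j : ℂ)))
    simpa using h1
  · by_cases hz : z i = true
    · simp only [if_pos hz]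
      exact hasDerivAt_const _ _
    · simp only [if_neg hz]
      have h1 : HasDerivAt (fun ε : ℂ => 1 + ε * w (jl i)) (w (jl i)) 0 := by
        simpa using ((hasDerivAt_id (0 : ℂ)).mul_const (w (jl i))).const_add 1
      have h2 : ∀ l ∈ (Finset.univ : Finset (Fin (u i))), HasDerivAt
          (fun ε : ℂ => (1 + (j : ℂ) * ((((l : ℕ) : ℂ) + 1 + ν i) + ε * w (jc i l))) ^ e i l)
          ((e i l : ℂ) * (1 + (j : ℂ) * (((l : ℕ) : ℂ) + 1 + ν i)) ^ (e i l - 1) *
              ((j : ℂ) * w (jc i l))) 0 := by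
        intro l _
        have h3 : HasDerivAt (fun ε : ℂ => 1 + (j : ℂ) * ((((l : ℕ) : ℂ) + 1 + ν i) +
            ε * w (jc i l))) ((j : ℂ) * w (jc i l)) 0 := by
          have h4 := ((((hasDerivAt_id (0 : ℂ)).mul_const (w (jc i l))).const_add
            (((l : ℕ) : ℂ) + 1 + ν i)).const_mul (j : ℂ)).const_add 1
          simpa using h4
        have h5 := h3.fun_pow (e i l)
        refine h5.congr_deriv ?_
        simp only [zero_mul, add_zero]
      have h6 := HasDerivAt.fun_finsetProd h2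
      have h7 := h1.fun_mul h6
      refine h7.congr_deriv ?_
      simp only [zero_mul, add_zero, one_mul, smul_eq_mul]

end dir

/-- solutions exist for infinitely many values of the parameter -/
theorem infinite_tauS [Fintype ι] {e : ∀ i, Fin (u i) → ℕ} {z : ι → Bool} (he : ∀ i l, 1 ≤ e i l)
    (hD : ∀ i, 1 ≤ ∑ l, e i l) (hle : ∑ i, TT (z i) (e i) ≤ 2 * N) :
    ∃ G : ι → MvPolynomial (Fin (N + 2)) ℂ, (∀ i, (G i).IsHomogeneous (∑ l, e i l)) ∧
      ∀ F : ι → MvPolynomial (Fin (N + 2)) ℂ,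
      {t : ℂ | ∃ v : WS N u → ℂ, (∀ (i : ι) (j : Fin (∑ l, e i l + 1)),
        eval v (ΦS e z G F i j) = 0) ∧ v jt = t}.Infinite := by
  classical
  obtain ⟨η, ν, hη, hsur⟩ := surjS (z := z) he hD hle
  refine ⟨specialS N e z η ν, specialS_hom hD z η ν, fun F => ?_⟩
  let I : Type := Σ i : ι, Fin (∑ l, e i l + 1)
  let Ψ : I → MvPolynomial (WS N u) ℂ := fun k => ΦS e z (specialS N e z η ν) F k.1 k.2
  let G' : I → ((WS N u → ℂ) →L[ℂ] ℂ) := fun k =>
    fderiv ℂ (fun v => eval v (Ψ k)) (vS N u ν)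
  have hG : ∀ k : I, HasStrictFDerivAt (fun v => eval v (Ψ k)) (G' k) (vS N u ν) := by
    intro k
    have h1 : AnalyticAt ℂ (fun v : WS N u → ℂ => eval v (Ψ k)) (vS N u ν) :=
      AnalyticOnNhd.eval_mvPolynomial (Ψ k) _ (Set.mem_univ _)
    exact h1.hasStrictFDerivAt
  let f : (WS N u → ℂ) → (I → ℂ) × ℂ := fun v => (fun k => eval v (Ψ k), v jt)
  let pr : (WS N u → ℂ) →L[ℂ] ℂ := ContinuousLinearMap.proj jt
  have hf : HasStrictFDerivAt f ((ContinuousLinearMap.pi G').prod pr) (vS N u ν) := by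
    refine HasStrictFDerivAt.prodMk ?_ pr.hasStrictFDerivAt
    exact hasStrictFDerivAt_pi.2 hG
  have hdir : ∀ (k : I) (w : WS N u → ℂ), w jt = 0 → G' k w =
      ((∑ n : Fin N, (w (ja n) + (k.2 : ℂ) * w (jb n)) * (η k.1 n).eval (k.2 : ℂ)) -
      (if z k.1 then 0 else
        (w (jl k.1) * ∏ l : Fin (u k.1), (1 + (k.2 : ℂ) * (((l : ℕ) : ℂ) + 1 + ν k.1)) ^ e k.1 l +
        ∑ l : Fin (u k.1), (∏ l' ∈ Finset.univ.erase l,
          (1 + (k.2 : ℂ) * (((l' : ℕ) : ℂ) + 1 + ν k.1)) ^ e k.1 l') *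
          ((e k.1 l : ℂ) * (1 + (k.2 : ℂ) * (((l : ℕ) : ℂ) + 1 + ν k.1)) ^ (e k.1 l - 1) *
            ((k.2 : ℂ) * w (jc k.1 l)))))) := by
    intro k w hw
    have h1 := hasDeriv_dirS (e := e) (z := z) (ν := ν) F k.1 (hη k.1) (k.2 : ℕ) w hw
    have h2 : HasDerivAt (fun ε : ℂ => vS N u ν + ε • w) w 0 := by
      simpa using ((hasDerivAt_id (0 : ℂ)).smul_const w).const_add (vS N u ν)
    have h3 : HasFDerivAt (fun v => eval v (Ψ k)) (G' k) (vS N u ν + (0 : ℂ) • w) := by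
      rw [zero_smul, add_zero]
      exact (hG k).hasFDerivAt
    have h4 := h3.comp_hasDerivAt (0 : ℂ) h2
    exact h4.unique h1
  have hsurj0 : ∀ y : I → ℂ, ∃ w : WS N u → ℂ, w jt = 0 ∧ ∀ k, G' k w = y k := by
    intro y
    have hinj : ∀ i, Set.InjOn (fun j : Fin (∑ l, e i l + 1) => ((j : ℕ) : ℂ))
        (Finset.univ : Finset (Fin (∑ l, e i l + 1))) := by
      intro i a _ b _ hab
      have hab' : ((a : ℕ) : ℂ) = ((b : ℕ) : ℂ) := hab
      exact Fin.ext (by exact_mod_cast hab')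
    let p : ι → Polynomial ℂ := fun i => Lagrange.interpolate Finset.univ
      (fun j : Fin (∑ l, e i l + 1) => ((j : ℕ) : ℂ)) (fun j => y ⟨i, j⟩)
    have hpd : ∀ i, (p i).natDegree ≤ ∑ l, e i l := by
      intro i
      have h1 := Lagrange.degree_interpolate_lt (r := fun j => y ⟨i, j⟩) (hinj i)
      rw [Finset.card_univ, Fintype.card_fin] at h1
      change (p i).degree < _ at h1
      have h2 := Polynomial.natDegree_lt_iff_degree_lt (p := p i) (n := ∑ l, e i l + 1)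
      by_cases hp0 : p i = 0
      · rw [hp0]
        simp
      · have := (h2 hp0).2 h1
        omega
    have hpe : ∀ (i : ι) (j : Fin (∑ l, e i l + 1)), (p i).eval ((j : ℕ) : ℂ) = y ⟨i, j⟩ :=
      fun i j => Lagrange.eval_interpolate_at_node (r := fun j => y ⟨i, j⟩) (hinj i)
        (Finset.mem_univ j)
    obtain ⟨a, b, c, lam, habc⟩ := hsur p hpd
    refine ⟨fun x => match x with
      | Sum.inl (Sum.inl i) => a i
      | Sum.inl (Sum.inr i) => b i
      | Sum.inr (Sum.inl l) => c l.1 l.2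
      | Sum.inr (Sum.inr (Sum.inl i)) => lam i
      | Sum.inr (Sum.inr (Sum.inr _)) => 0, rfl, fun k => ?_⟩
    rw [hdir k _ rfl]
    obtain ⟨i, j⟩ := k
    rw [← hpe i j, habc]
    rfl
  have hrange : ((ContinuousLinearMap.pi G').prod pr).range = ⊤ := by
    rw [LinearMap.range_eq_top]
    rintro ⟨y, t⟩
    let w1 : WS N u → ℂ := Pi.single jt 1
    obtain ⟨w, hw0, hw⟩ := hsurj0 (fun k => y k - t * G' k w1)
    refine ⟨w + t • w1, ?_⟩
    refine Prod.ext ?_ ?_
    · funext k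
      change G' k (w + t • w1) = y k
      rw [map_add, map_smul, hw, smul_eq_mul]
      ring
    · change (w + t • w1) jt = t
      simp [hw0, w1]
  have hmap := hf.map_nhds_eq_of_surj hrange
  have hf0 : f (vS N u ν) = (0, 0) := by
    refine Prod.ext ?_ ?_
    · funext k
      change eval (vS N u ν) (Ψ k) = 0
      have := eval_dirS (e := e) (z := z) (ν := ν) F k.1 (hη k.1) (k.2 : ℕ) (0 : WS N u → ℂ) rfl 0
      rw [smul_zero, add_zero] at this
      rw [this]
      simp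
    · rfl
  rw [hf0] at hmap
  have hr : Set.range f ∈ 𝓝 ((0 : I → ℂ), (0 : ℂ)) := by
    rw [← hmap]
    exact Filter.mem_map.2 (Filter.Eventually.of_forall fun v => Set.mem_range_self v)
  have hT : {t : ℂ | ∃ v : WS N u → ℂ, (∀ (i : ι) (j : Fin (∑ l, e i l + 1)),
      eval v (ΦS e z (specialS N e z η ν) F i j) = 0) ∧ v jt = t} ∈ 𝓝 (0 : ℂ) := by
    have hc : Continuous fun t : ℂ => ((0 : I → ℂ), t) := by fun_prop
    have h1 := hc.continuousAt.preimage_mem_nhds (x := (0 : ℂ)) hr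
    refine Filter.mem_of_superset h1 ?_
    rintro t ⟨v, hv⟩
    refine ⟨v, fun i j => ?_, ?_⟩
    · exact congrFun (congrArg Prod.fst hv) ⟨i, j⟩
    · exact congrArg Prod.snd hv
  exact infinite_of_mem_nhds (0 : ℂ) hT

end Pool.Agent.Helper568.LM
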