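import Pool.Agent.Helper568_LM.DomS

/-!
Existence of lines on which several forms over an algebraically closed subfield of the complex numbers
have prescribed multiplicities, or vanish.
-/

set_option autoImplicit false

namespace Pool.Agent.Helper568.LM

open MvPolynomial Pool.Agent.Helper568.LL

variable {N : ℕ} {ι : Type} [Fintype ι] {u : ι → ℕ}

/-- **Contact lines of several forms.** -/
theorem contactS_exists {k : Type} [Field k] [IsAlgClosed k] [Algebra k ℂ]
    {e : ∀ i, Fin (u i) → ℕ} {z : ι → Bool} (he : ∀ i l, 1 ≤ e i l)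
    (hD : ∀ i, 1 ≤ ∑ l, e i l) (hle : ∑ i, TT (z i) (e i) ≤ 2 * N)
    {F : ι → MvPolynomial (Fin (N + 2)) k} (hF : ∀ i, (F i).IsHomogeneous (∑ l, e i l)) :
    ContactS e z F := by
  classical
  let F1 : ι → MvPolynomial (Fin (N + 2)) ℂ := fun i => map (algebraMap k ℂ) (F i)
  have hF1h : ∀ i, (F1 i).IsHomogeneous (∑ l, e i l) := fun i => (hF i).map _
  obtain ⟨G, hG, hinfT⟩ := infinite_tauS (N := N) (z := z) he hD hle
  -- a generic solution
  let τX : MvPolynomial (WS N u) ℂ := X jt
  let ψ : Polynomial ℂ →ₐ[ℂ] MvPolynomial (WS N u) ℂ := Polynomial.aeval τX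
  let S' : Submonoid (MvPolynomial (WS N u) ℂ) := Submonoid.map ψ (nonZeroDivisors (Polynomial ℂ))
  let J : Ideal (MvPolynomial (WS N u) ℂ) :=
    Ideal.span {g | ∃ (i : ι) (j : Fin (∑ l, e i l + 1)), g = ΦS e z G F1 i j}
  have hdisj : Disjoint (J : Set (MvPolynomial (WS N u) ℂ)) S' := by
    rw [Set.disjoint_left]
    rintro g hgJ ⟨p, hp, rfl⟩
    have hp0 : p ≠ 0 := nonZeroDivisors.ne_zero hp
    apply hp0
    refine Polynomial.eq_zero_of_infinite_isRoot p ((hinfT F1).mono ?_)
    rintro t ⟨v, hv, rfl⟩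
    have hle' : J ≤ RingHom.ker (eval v) := by
      rw [Ideal.span_le]
      rintro _ ⟨i, j, rfl⟩
      exact hv i j
    have h1 : eval v (ψ p) = 0 := hle' hgJ
    have h2 : eval v (ψ p) = p.eval (v jt) := by
      have h3 := Polynomial.aeval_algHom_apply
        (MvPolynomial.aeval v : MvPolynomial (WS N u) ℂ →ₐ[ℂ] ℂ) τX p
      rw [aeval_X] at h3
      rw [← Polynomial.coe_aeval_eq_eval, h3]
      rw [aeval_eq_eval]
    change p.eval _ = 0
    rw [← h2, h1]
  obtain ⟨P, hPprime, hJP, hPS⟩ := Ideal.exists_le_prime_disjoint J S' hdisj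
  let B := MvPolynomial (WS N u) ℂ ⧸ P
  let Ω := FractionRing B
  let φ : MvPolynomial (WS N u) ℂ →ₐ[ℂ] Ω :=
    (IsScalarTower.toAlgHom ℂ B Ω).comp (Ideal.Quotient.mkₐ ℂ P)
  have hφ : ∀ g, φ g = 0 ↔ g ∈ P := by
    intro g
    change algebraMap B Ω (Ideal.Quotient.mk P g) = 0 ↔ g ∈ P
    rw [FaithfulSMul.algebraMap_eq_zero_iff, Ideal.Quotient.eq_zero_iff_mem]
  let τ : Ω := φ τX
  have hτ : ∀ p : Polynomial ℂ, Polynomial.aeval τ p = 0 → p = 0 := by
    intro p hp
    by_contra hp0
    have h1 : Polynomial.aeval τ p = φ (ψ p) := Polynomial.aeval_algHom_apply φ τX p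
    rw [h1, hφ] at hp
    exact Set.disjoint_left.1 hPS hp ⟨p, mem_nonZeroDivisors_of_ne_zero hp0, rfl⟩
  -- the valuation ring
  let A : Subring Ω := ((Polynomial.aeval τ : Polynomial ℂ →ₐ[ℂ] Ω) : Polynomial ℂ →+* Ω).range
  have hτA : τ ∈ A := ⟨Polynomial.X, by simp⟩
  let τ1 : A := ⟨τ - 1, A.sub_mem hτA A.one_mem⟩
  obtain ⟨V, hAV, hI⟩ := Ideal.image_subset_nonunits_valuationSubring (K := Ω)
    (Ideal.span {τ1}) (by
      intro htop
      rw [Ideal.span_singleton_eq_top] at htop
      obtain ⟨y, hy⟩ := isUnit_iff_exists_inv.1 htop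
      obtain ⟨p, hp⟩ := y.2
      have hy' : (τ - 1) * (y : Ω) = 1 := congrArg Subtype.val hy
      have h1 : Polynomial.aeval τ ((Polynomial.X - 1) * p - 1) = 0 := by
        have hp' : Polynomial.aeval τ p = (y : Ω) := hp
        rw [map_sub, map_mul, map_sub, Polynomial.aeval_X, map_one, hp', hy', sub_self]
      have h2 := congrArg (Polynomial.eval 1) (hτ _ h1)
      simp at h2)
  have hτV : τ ∈ V := hAV hτA
  have hcV : ∀ c : ℂ, algebraMap ℂ Ω c ∈ V := fun c => hAV ⟨Polynomial.C c, by simp⟩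
  have hτ1 : τ - 1 ∈ V.nonunits := hI ⟨τ1, Ideal.subset_span rfl, rfl⟩
  let ιV : ℂ →+* V :=
    { toFun := fun c => ⟨algebraMap ℂ Ω c, hcV c⟩
      map_one' := Subtype.ext (map_one _)
      map_zero' := Subtype.ext (map_zero _)
      map_mul' := fun a b => Subtype.ext (map_mul _ a b)
      map_add' := fun a b => Subtype.ext (map_add _ a b) }
  let τV : V := ⟨τ, hτV⟩
  let Fτ : ι → MvPolynomial (Fin (N + 2)) V := fun i =>
    C (1 - τV) * map ιV (G i) + C τV * map ιV (F1 i)
  have hιΩ : (algebraMap V Ω).comp ιV = algebraMap ℂ Ω := rfl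
  have hmap : ∀ i, map (algebraMap V Ω) (Fτ i) =
      C (1 - τ) * map (algebraMap ℂ Ω) (G i) + C τ * map (algebraMap ℂ Ω) (F1 i) := by
    intro i
    simp only [Fτ, map_add, map_mul, map_C, map_map, hιΩ]
    rfl
  have hchar : CharZero Ω := charZero_of_injective_algebraMap (algebraMap ℂ Ω).injective
  have hhom : ∀ i, (map (algebraMap V Ω) (Fτ i)).IsHomogeneous (∑ l, e i l) := by
    intro i
    rw [hmap]
    refine IsHomogeneous.add ?_ ?_
    · have := (isHomogeneous_C (Fin (N + 2)) (1 - τ)).mul ((hG i).map (algebraMap ℂ Ω))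
      simpa using this
    · have := (isHomogeneous_C (Fin (N + 2)) τ).mul ((hF1h i).map (algebraMap ℂ Ω))
      simpa using this
  have hcon : ContactS e z (fun i => map (algebraMap V Ω) (Fτ i)) := by
    let w : WS N u → Ω := fun x => φ (X x)
    have hw : ∀ g, φ g = aeval w g := fun g => by
      have := MvPolynomial.aeval_unique φ
      rw [this]
      rfl
    refine ⟨pp (fun i => w (ja i)), qq (fun i => w (jb i)),
      fun _ _ => 1, fun i l => w (jc i l), fun i => if z i then 0 else w (jl i), ⟨0, 1, ?_⟩,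
      fun _ _ => Or.inl one_ne_zero, fun i hi => if_pos hi, ?_⟩
    · have e1 : pp (fun i => w (ja i)) 0 = 1 := rfl
      have e2 : qq (fun i => w (jb i)) 1 = 1 := rfl
      have e3 : pp (fun i => w (ja i)) 1 = 0 := rfl
      rw [e1, e2, e3]
      simp
    · intro i
      refine ext_line (hhom i) rfl _ _ _ _ fun j => ?_
      have h1 : φ (ΦS e z G F1 i j) = 0 := (hφ _).2 (hJP (Ideal.subset_span ⟨i, j, rfl⟩))
      rw [hw, aeval_ΦS] at h1
      rw [hmap]
      simp only [map_add, map_mul, eval_C, eval_map]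
      have h2 : w jt = τ := rfl
      rw [h2] at h1
      rw [← sub_eq_zero]
      by_cases hz : z i = true
      · rw [if_pos hz] at h1
        rw [if_pos hz, zero_mul]
        exact h1
      · rw [if_neg hz] at h1
        rw [if_neg hz]
        exact h1
  -- the residue field
  let κ := IsLocalRing.ResidueField V
  let ρ : ℂ →+* κ := (IsLocalRing.residue V).comp ιV
  have hinf : Infinite κ := Infinite.of_injective ρ ρ.injective
  have hspec := hcon.spec
  have hτres : IsLocalRing.residue V τV = 1 := by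
    have h1 : IsLocalRing.residue V (τV - 1) = 0 := by
      rw [IsLocalRing.residue_eq_zero_iff, IsLocalRing.mem_maximalIdeal, mem_nonunits_iff]
      intro hu
      have h2 := (ValuationSubring.mem_nonunits_iff V).1 hτ1
      have h3 := (V.valuation_eq_one_iff (τV - 1)).1 hu
      have h4 : (((τV - 1 : V)) : Ω) = τ - 1 := rfl
      rw [h4] at h3
      rw [h3] at h2
      exact lt_irrefl _ h2
    rw [map_sub, map_one, sub_eq_zero] at h1
    exact h1
  let _ : Algebra k κ := (ρ.comp (algebraMap k ℂ)).toAlgebra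
  have hmap2 : ∀ i, map (IsLocalRing.residue V) (Fτ i) = map (algebraMap k κ) (F i) := by
    intro i
    have h1 : algebraMap k κ = (IsLocalRing.residue V).comp (ιV.comp (algebraMap k ℂ)) := rfl
    simp only [Fτ, map_add, map_mul, map_C, hτres, map_sub, map_one, sub_self, zero_mul,
      zero_add, one_mul]
    rw [h1, ← MvPolynomial.map_map, ← MvPolynomial.map_map]
  simp only [hmap2] at hspec
  exact hspec.descend

end Pool.Agent.Helper568.LM
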