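import Pool.Agent.Helper568_LM.ExistS
import Pool.Agent.Helper568_LM.DefsS
import Pool.Agent.Helper568_LM.CurvesS
import Pool.Agent.Helper568_LL.Main

/-!
Abelian coverings of complete intersections: entire curves and infinitely many rational points.
-/

set_option autoImplicit false

namespace Pool.Agent.Helper568.LM

open MvPolynomial Pool.Agent.Helper568.LL

theorem exists_goodS {κ : Type} [Field κ] [Infinite κ] {ι : Type} [Fintype ι] (a b : ι → κ)
    (h : ∀ l, a l ≠ 0 ∨ b l ≠ 0) : ∃ z : κ, ∀ l, a l + b l * z ≠ 0 := by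
  classical
  let eq := (Fintype.equivFin ι).symm
  obtain ⟨z, hz⟩ := exists_good (fun l => a (eq l)) (fun l => b (eq l)) (fun l => h _)
  refine ⟨z, fun l => ?_⟩
  have := hz (eq.symm l)
  simpa using this

/-- The normal form. -/
theorem ContactS.normal {k : Type} [Field k] [Infinite k] {M : ℕ} {ι : Type} [Fintype ι]
    {u : ι → ℕ} {e : ∀ i, Fin (u i) → ℕ} {z : ι → Bool}
    {F : ι → MvPolynomial (Fin M) k} (h : ContactS e z F) :
    ∃ (p q : Fin M → k) (c : ∀ i, Fin (u i) → k) (Λ : ι → k), (∃ i j, p i * q j - p j * q i ≠ 0) ∧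
      (∀ i, z i = true → Λ i = 0) ∧ ∀ (i : ι) (s t : k),
          eval (fun m => s * p m + t * q m) (F i) = Λ i * ∏ l, (s + c i l * t) ^ e i l := by
  classical
  obtain ⟨p, q, α, β, Λ, ⟨i, j, hij⟩, hαβ, hΛz, hF'⟩ := h
  obtain ⟨y, hy⟩ := exists_goodS (ι := Σ i, Fin (u i)) (fun x => α x.1 x.2) (fun x => β x.1 x.2)
    (fun x => hαβ x.1 x.2)
  have hy' : ∀ i l, α i l + β i l * y ≠ 0 := fun i l => hy ⟨i, l⟩
  refine ⟨fun m => p m + y * q m, q, fun i l => β i l / (α i l + β i l * y),
    fun i => Λ i * ∏ l, (α i l + β i l * y) ^ e i l, ⟨i, j, ?_⟩, fun i hi => ?_,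
    fun i s t => ?_⟩
  · have : (p i + y * q i) * q j - (p j + y * q j) * q i = p i * q j - p j * q i := by ring
    rw [this]
    exact hij
  · simp only [hΛz i hi, zero_mul]
  · have e1 : (fun m => s * (p m + y * q m) + t * q m) =
        fun m => s * p m + (s * y + t) * q m := by
      funext m
      ring
    rw [e1, hF']
    have e2 : ∏ l, (α i l * s + β i l * (s * y + t)) ^ e i l =
        (∏ l, (α i l + β i l * y) ^ e i l) *
          ∏ l, (s + β i l / (α i l + β i l * y) * t) ^ e i l := by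
      rw [← Finset.prod_mul_distrib]
      refine Finset.prod_congr rfl fun l _ => ?_
      rw [← mul_pow]
      congr 1
      have := hy' i l
      field_simp
      ring
    rw [e2, mul_assoc]

/-- the numbers of linear forms -/
def uu (r : ℕ) {S : ℕ} (w q : Fin S → ℕ) : Fin r ⊕ Fin S → ℕ :=
  Sum.elim (fun _ => 1) (fun i => w i + q i)

/-- the exponents -/
def EE {r S : ℕ} (d : Fin r → ℕ) (k w : Fin S → ℕ) (e' : Fin S → ℕ → ℕ) : Fin r ⊕ Fin S → ℕ → ℕ :=
  Sum.elim (fun j _ => d j) (fun i n => if n < w i then e' i n else k i)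

def zz (r S : ℕ) : Fin r ⊕ Fin S → Bool := Sum.elim (fun _ => true) (fun _ => false)

theorem line_S {kk : Type} [Field kk] [IsAlgClosed kk] [Algebra kk ℂ] {N r S : ℕ}
    {d : Fin r → ℕ} (hd : ∀ j, 1 ≤ d j) {k m w q : Fin S → ℕ} (hk : ∀ i, 1 ≤ k i)
    (hm : ∀ i, 1 ≤ m i) {e' : Fin S → ℕ → ℕ} (he' : ∀ i n, n < w i → 1 ≤ e' i n)
    (hD : ∀ i, ∑ n ∈ Finset.range (w i), e' i n + q i * k i = k i * m i)
    (hle : ∑ j, (d j + 1) + ∑ i, (∑ n ∈ Finset.range (w i), (e' i n - 1) + q i * (k i - 1)) ≤ 2 * N)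
    {G : Fin r → MvPolynomial (Fin (N + 2)) kk} (hG : ∀ j, (G j).IsHomogeneous (d j))
    {F : Fin S → MvPolynomial (Fin (N + 2)) kk} (hF : ∀ i, (F i).IsHomogeneous (k i * m i)) :
    ∃ (p p' : Fin (N + 2) → kk) (c c' : Fin S → ℕ → kk) (ρ : Fin S → kk),
      (∃ i j, p i * p' j - p j * p' i ≠ 0) ∧
      (∀ (j : Fin r) (s t : kk), eval (fun n => s * p n + t * p' n) (G j) = 0) ∧
      ∀ (i : Fin S) (s t : kk), eval (fun n => s * p n + t * p' n) (F i) =
        (∏ l ∈ Finset.range (w i), (s + c i l * t) ^ e' i l) *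
          (ρ i * ∏ l ∈ Finset.range (q i), (s + c' i l * t)) ^ k i := by
  classical
  let e : ∀ x, Fin (uu r w q x) → ℕ := fun x l => EE d k w e' x l
  have hsum : ∀ (x : Fin r ⊕ Fin S) (h : ℕ → ℕ),
      ∑ l : Fin (uu r w q x), h (l : ℕ) = ∑ n ∈ Finset.range (uu r w q x), h n := fun x h =>
    Fin.sum_univ_eq_sum_range h _
  have hsl : ∀ j : Fin r, ∑ l, e (Sum.inl j) l = d j := by
    intro j
    change ∑ l : Fin (uu r w q (Sum.inl j)), EE d k w e' (Sum.inl j) (l : ℕ) = d j
    rw [hsum]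
    change ∑ n ∈ Finset.range 1, d j = d j
    simp
  have hsplit : ∀ (i : Fin S) (h : ℕ → ℕ),
      ∑ n ∈ Finset.range (w i + q i), h (if n < w i then e' i n else k i) =
      ∑ n ∈ Finset.range (w i), h (e' i n) + q i * h (k i) := by
    intro i h
    rw [Finset.sum_range_add]
    congr 1
    · refine Finset.sum_congr rfl fun n hn => ?_
      rw [if_pos (Finset.mem_range.1 hn)]
    · rw [Finset.sum_congr rfl (g := fun _ => h (k i)) fun n _ => by rw [if_neg (by omega)]]
      simp
  have hsr : ∀ i : Fin S, ∑ l, e (Sum.inr i) l = k i * m i := by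
    intro i
    change ∑ l : Fin (uu r w q (Sum.inr i)), EE d k w e' (Sum.inr i) (l : ℕ) = k i * m i
    rw [hsum]
    change ∑ n ∈ Finset.range (w i + q i), (if n < w i then e' i n else k i) = k i * m i
    exact (hsplit i fun n => n).trans (hD i)
  have he : ∀ x l, 1 ≤ e x l := by
    rintro (j | i) l
    · exact hd j
    · change 1 ≤ if (l : ℕ) < w i then e' i l else k i
      split_ifs with h
      · exact he' i _ h
      · exact hk i
  have hDD : ∀ x, 1 ≤ ∑ l, e x l := by
    rintro (j | i)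
    · rw [hsl]
      exact hd j
    · rw [hsr]
      exact Nat.mul_pos (hk i) (hm i)
  have hT : ∑ x, TT (zz r S x) (e x) ≤ 2 * N := by
    rw [Fintype.sum_sum_type]
    have h1 : ∀ j : Fin r, TT (zz r S (Sum.inl j)) (e (Sum.inl j)) = d j + 1 := by
      intro j
      unfold TT
      change (if true = true then _ else _) = _
      rw [if_pos rfl, hsl]
    have h2 : ∀ i : Fin S, TT (zz r S (Sum.inr i)) (e (Sum.inr i)) =
        ∑ n ∈ Finset.range (w i), (e' i n - 1) + q i * (k i - 1) := by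
      intro i
      unfold TT
      change (if false = true then _ else _) = _
      rw [if_neg (by simp)]
      change ∑ l : Fin (uu r w q (Sum.inr i)), (EE d k w e' (Sum.inr i) (l : ℕ) - 1) = _
      rw [hsum _ fun n => EE d k w e' (Sum.inr i) n - 1]
      exact hsplit i fun n => n - 1
    rw [Finset.sum_congr rfl fun j _ => h1 j, Finset.sum_congr rfl fun i _ => h2 i]
    exact hle
  have hhom : ∀ x : Fin r ⊕ Fin S, (Sum.elim G F x).IsHomogeneous (∑ l, e x l) := by
    rintro (j | i)
    · rw [hsl]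
      exact hG j
    · rw [hsr]
      exact hF i
  have : Infinite kk := IsAlgClosed.instInfinite
  obtain ⟨p, p', c, Λ, hij, hΛz, hc⟩ := (contactS_exists (z := zz r S) he hDD hT hhom).normal
  have hroot : ∀ i : Fin S, ∃ ρ : kk, ρ ^ k i = Λ (Sum.inr i) := fun i =>
    IsAlgClosed.exists_pow_nat_eq _ (hk i)
  choose ρ hρ using hroot
  let cc : Fin S → ℕ → kk := fun i n => if h : n < w i + q i then c (Sum.inr i) ⟨n, h⟩ else 0
  refine ⟨p, p', cc, fun i n => cc i (w i + n), ρ, hij, fun j s t => ?_, fun i s t => ?_⟩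
  · have h1 := hc (Sum.inl j) s t
    rw [hΛz (Sum.inl j) rfl, zero_mul] at h1
    exact h1
  · have h1 := hc (Sum.inr i) s t
    change eval _ (F i) = _ at h1
    rw [h1, ← hρ]
    have h2 : ∏ l : Fin (w i + q i), (s + c (Sum.inr i) l * t) ^ e (Sum.inr i) l =
        ∏ n ∈ Finset.range (w i + q i), (s + cc i n * t) ^ (if n < w i then e' i n else k i) := by
      rw [← Fin.prod_univ_eq_prod_range
        (fun n => (s + cc i n * t) ^ (if n < w i then e' i n else k i))]
      refine Finset.prod_congr rfl fun l _ => ?_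
      simp only [cc]
      rw [dif_pos l.2]
      rfl
    change ρ i ^ k i * ∏ l : Fin (w i + q i), (s + c (Sum.inr i) l * t) ^ e (Sum.inr i) l = _
    rw [h2, Finset.prod_range_add, mul_pow, ← Finset.prod_pow]
    have h3 : ∏ x ∈ Finset.range (w i),
        (s + cc i x * t) ^ (if x < w i then e' i x else k i) =
        ∏ l ∈ Finset.range (w i), (s + cc i l * t) ^ e' i l :=
      Finset.prod_congr rfl fun n hn => by rw [if_pos (Finset.mem_range.1 hn)]
    have h4 : ∏ x ∈ Finset.range (q i),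
        (s + cc i (w i + x) * t) ^ (if w i + x < w i then e' i (w i + x) else k i) =
        ∏ l ∈ Finset.range (q i), (s + cc i (w i + l) * t) ^ k i :=
      Finset.prod_congr rfl fun n _ => by rw [if_neg (by omega)]
    rw [h3, h4]
    ring

section main

variable {N r S : ℕ} {d : Fin r → ℕ} (hd : ∀ j, 1 ≤ d j) {k m w q : Fin S → ℕ}
  (hk : ∀ i, 1 ≤ k i) (hm : ∀ i, 1 ≤ m i) {e' : Fin S → ℕ → ℕ} (he' : ∀ i n, n < w i → 1 ≤ e' i n)
  (hD : ∀ i, ∑ n ∈ Finset.range (w i), e' i n + q i * k i = k i * m i)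
  (hle : ∑ j, (d j + 1) + ∑ i, (∑ n ∈ Finset.range (w i), (e' i n - 1) + q i * (k i - 1)) ≤ 2 * N)

include hd hk hm he' hD hle

/-- not hyperbolic -/
theorem not_hypS (hAn : AnS k w e') {G : Fin r → MvPolynomial (Fin (N + 2)) ℂ}
    (hG : ∀ j, (G j).IsHomogeneous (d j)) {F : Fin S → MvPolynomial (Fin (N + 2)) ℂ}
    (hF : ∀ i, (F i).IsHomogeneous (k i * m i)) : ¬ Hyperbolic m k G F := by
  intro hyp
  obtain ⟨p, p', c, c', ρ, ⟨i, j, hij⟩, hGl, hFl⟩ := line_S hd hk hm he' hD hle hG hF
  obtain ⟨f, g, v, hf, hg, hv, hfg, hvk, z, z', hne⟩ := hAn c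
  have h1 := hyp (fun z i => v i z * (ρ i * ∏ l ∈ Finset.range (q i), (f z + c' i l * g z)))
    (fun z n => f z * p n + g z * p' n) ?_ ?_ (fun z => ⟨?_, fun j => hGl j _ _, fun i => ?_⟩) z z'
  · obtain ⟨a, ha, -, h2⟩ := h1
    have h3 : (fun n => (f z' - a * f z) * p n + (g z' - a * g z) * p' n) = 0 := by
      funext n
      have h4 := h2 n
      simp only at h4
      simp only [Pi.zero_apply]
      linear_combination h4
    obtain ⟨h5, h6⟩ := Pool.Agent.Helper568.LL.lin_ne hij h3
    apply hne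
    linear_combination g z * h5 - f z * h6
  · refine differentiable_pi.2 fun i => (hv i).mul ?_
    fun_prop
  · exact differentiable_pi.2 fun n => (hf.mul_const _).add (hg.mul_const _)
  · intro h0
    have h2 : (fun n => f z * p n + g z * p' n) = 0 := h0
    obtain ⟨h3, h4⟩ := Pool.Agent.Helper568.LL.lin_ne hij h2
    rcases hfg z with h | h
    · exact h h3
    · exact h h4
  · change (v i z * (ρ i * ∏ l ∈ Finset.range (q i), (f z + c' i l * g z))) ^ k i = _
    rw [mul_pow, hvk, hFl]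

/-- infinitely many points -/
theorem inf_pointsS {K : Type} [Field K] [CharZero K] (σ : K →+* ℂ)
    (hAr : ArS k w e') {G : Fin r → MvPolynomial (Fin (N + 2)) K}
    (hG : ∀ j, (G j).IsHomogeneous (d j)) {F : Fin S → MvPolynomial (Fin (N + 2)) K}
    (hF : ∀ i, (F i).IsHomogeneous (k i * m i)) :
    ∃ L : IntermediateField K (AlgebraicClosure K), FiniteDimensional K L ∧
      ¬ FinitelyManyPoints m k (fun j => map (algebraMap K L) (G j))
        (fun i => map (algebraMap K L) (F i)) := by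
  classical
  let kk := AlgebraicClosure K
  let _ : Algebra K ℂ := σ.toAlgebra
  let σ' : kk →ₐ[K] ℂ := IsAlgClosed.lift
  let _ : Algebra kk ℂ := (σ' : kk →+* ℂ).toAlgebra
  have hG' : ∀ j, (map (algebraMap K kk) (G j)).IsHomogeneous (d j) := fun j => (hG j).map _
  have hF' : ∀ i, (map (algebraMap K kk) (F i)).IsHomogeneous (k i * m i) := fun i => (hF i).map _
  obtain ⟨p, p', c, c', ρ, ⟨i, j, hij⟩, hGl, hFl⟩ := line_S hd hk hm he' hD hle hG' hF'
  have hch : CharZero kk := charZero_of_injective_algebraMap (algebraMap K kk).injective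
  obtain ⟨T, hT⟩ := hAr kk c
  let T' : Finset kk := T ∪ Finset.univ.image p ∪ Finset.univ.image p' ∪ Finset.univ.image ρ ∪
    Finset.univ.biUnion fun i => (Finset.range (q i)).image (c' i)
  let L : IntermediateField K kk := IntermediateField.adjoin K (T' : Set kk)
  have hfd : FiniteDimensional K L :=
    IntermediateField.finiteDimensional_adjoin fun x _ => Algebra.IsIntegral.isIntegral x
  refine ⟨L, hfd, ?_⟩
  have hsub : ∀ x ∈ T', x ∈ L := fun x hx => IntermediateField.subset_adjoin K _ hx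
  have hp : ∀ n, p n ∈ L := fun n => hsub _ (by simp [T'])
  have hp' : ∀ n, p' n ∈ L := fun n => hsub _ (by simp [T'])
  have hρ : ∀ n, ρ n ∈ L := fun n => hsub _ (by simp [T'])
  have hc' : ∀ (i : Fin S) (l : ℕ), l ∈ Finset.range (q i) → c' i l ∈ L := fun i l hl => hsub _ (by
    simp only [T', Finset.mem_union, Finset.mem_biUnion, Finset.mem_image, Finset.mem_univ, true_and]
    exact Or.inr ⟨i, l, hl, rfl⟩)
  have hinf := hT L.toSubfield (fun x hx => hsub x (by simp [T', hx]))
  rintro ⟨S', hS'⟩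
  apply hinf
  -- the value of `z` is determined by the point
  let g : (Fin S → L) × (Fin (N + 2) → L) → kk := fun Q =>
    ((Q.2 i : kk) * p' j - (Q.2 j : kk) * p' i) / ((Q.2 j : kk) * p i - (Q.2 i : kk) * p j)
  refine (S'.finite_toSet.image g).subset ?_
  rintro z ⟨hz, hv⟩
  choose v hvL hvk using hv
  have hyL : ∀ i, v i * (ρ i * ∏ l ∈ Finset.range (q i), (z + c' i l)) ∈ L := fun i =>
    L.mul_mem (hvL i) (L.mul_mem (hρ i) (L.prod_mem fun l hl => L.add_mem hz (hc' i l hl)))
  let P : (Fin S → L) × (Fin (N + 2) → L) :=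
    (fun i => ⟨_, hyL i⟩, fun n => ⟨z, hz⟩ * ⟨p n, hp n⟩ + ⟨p' n, hp' n⟩)
  have hP1 : ∀ i, ((P.1 i : L) : kk) = v i * (ρ i * ∏ l ∈ Finset.range (q i), (z + c' i l)) :=
    fun i => rfl
  have hP2 : ∀ n, ((P.2 n : L) : kk) = z * p n + p' n := fun n => rfl
  have hev : ∀ H : MvPolynomial (Fin (N + 2)) K,
      (algebraMap L kk) (eval P.2 (map (algebraMap K L) H)) =
        eval (fun n => z * p n + 1 * p' n) (map (algebraMap K kk) H) := by
    intro H
    rw [MvPolynomial.map_eval, MvPolynomial.map_map]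
    have h2 : (algebraMap L kk).comp (algebraMap K L) = algebraMap K kk := rfl
    rw [h2]
    congr 1
    congr 1
    funext n
    rw [one_mul]
    rfl
  have hPpt : IsPt k (fun j => map (algebraMap K L) (G j)) (fun i => map (algebraMap K L) (F i)) P := by
    refine ⟨?_, fun j => ?_, fun i => ?_⟩
    · intro h0
      have h1 : (fun n => z * p n + 1 * p' n) = 0 := by
        funext n
        have h2 := congrArg (fun x : L => (x : kk)) (congrFun h0 n)
        simp only [hP2] at h2
        rw [one_mul]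
        exact h2
      exact one_ne_zero (Pool.Agent.Helper568.LL.lin_ne hij h1).2
    · apply (algebraMap L kk).injective
      rw [hev, hGl, map_zero]
    · apply (algebraMap L kk).injective
      rw [hev, hFl, map_pow]
      change ((P.1 i : L) : kk) ^ k i = _
      rw [hP1, mul_pow, hvk]
      simp only [mul_one]
  obtain ⟨Q, hQS, a, ha, -, haQ⟩ := hS' P hPpt
  refine ⟨Q, hQS, ?_⟩
  have ha' : (a : kk) ≠ 0 := by
    intro h0
    apply ha
    exact Subtype.ext h0
  have hQ : ∀ n, z * p n + p' n = (a : kk) * (Q.2 n : kk) := by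
    intro n
    have h2 := congrArg (fun x : L => (x : kk)) (haQ n)
    simp only [hP2] at h2
    exact h2
  have hQi : (Q.2 i : kk) = (z * p i + p' i) / a := by
    rw [hQ i, mul_div_cancel_left₀ _ ha']
  have hQj : (Q.2 j : kk) = (z * p j + p' j) / a := by
    rw [hQ j, mul_div_cancel_left₀ _ ha']
  change ((Q.2 i : kk) * p' j - (Q.2 j : kk) * p' i) / ((Q.2 j : kk) * p i - (Q.2 i : kk) * p j) = z
  rw [hQi, hQj]
  have e1 : (z * p i + p' i) / (a : kk) * p' j - (z * p j + p' j) / (a : kk) * p' i =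
      z * ((p i * p' j - p j * p' i) / a) := by ring
  have e2 : (z * p j + p' j) / (a : kk) * p i - (z * p i + p' i) / (a : kk) * p j =
      (p i * p' j - p j * p' i) / a := by ring
  rw [e1, e2, mul_div_cancel_right₀ _ (div_ne_zero hij ha')]

end main

end Pool.Agent.Helper568.LM
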