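import Pool.Agent.Helper568_LM.Blocks

/-!
The simultaneous surjectivity for several forms.
-/

set_option autoImplicit false

namespace Pool.Agent.Helper568.LM

open Polynomial

theorem sum_deg {N D : ℕ} (hD : 1 ≤ D) {η : Fin N → ℂ[X]} (hη : ∀ j, (η j).natDegree ≤ D - 1)
    (a b : Fin N → ℂ) : (∑ j, (C (a j) + X * C (b j)) * η j).natDegree ≤ D := by
  refine natDegree_sum_le_of_forall_le _ _ fun j _ => ?_
  refine natDegree_mul_le.trans ?_
  have h1 : (C (a j) + X * C (b j)).natDegree ≤ 1 := by
    refine (natDegree_add_le _ _).trans (max_le (by simp) ?_)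
    exact (natDegree_mul_C_le _ _).trans natDegree_X_le
  have h2 := hη j
  omega

/-- the sum as a linear map -/
noncomputable def sumL {N : ℕ} (η : Fin N → ℂ[X]) : ((Fin N → ℂ) × (Fin N → ℂ)) →ₗ[ℂ] ℂ[X] where
  toFun x := ∑ j, (C (x.1 j) + X * C (x.2 j)) * η j
  map_add' x y := by
    rw [← Finset.sum_add_distrib]
    refine Finset.sum_congr rfl fun j _ => ?_
    simp only [Prod.fst_add, Prod.snd_add, Pi.add_apply, C_add]
    ring
  map_smul' c x := by
    rw [RingHom.id_apply, Finset.smul_sum]
    refine Finset.sum_congr rfl fun j _ => ?_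
    simp only [Prod.smul_fst, Prod.smul_snd, Pi.smul_apply, smul_eq_mul, C_mul, smul_eq_C_mul]
    ring

variable {ι : Type} {u : ι → ℕ} {e : ∀ i, Fin (u i) → ℕ} {z : ι → Bool}

/-- a solution of the homogeneous system -/
theorem kernel (hD : ∀ i, 1 ≤ ∑ l, e i l) (s : Finset (ι)) {N : ℕ}
    (h : ∑ i ∈ s, TT (z i) (e i) < 2 * N) {η : ι → Fin N → ℂ[X]} (ν : ι → ℕ)
    (hη : ∀ i ∈ s, ∀ j, (η i j).natDegree ≤ ∑ l, e i l - 1) :
    ∃ α β : Fin N → ℂ, (∃ j, α j ≠ 0 ∨ β j ≠ 0) ∧
      ∀ i ∈ s, RR (z i) (e i) (ν i) (∑ j, (C (α j) + X * C (β j)) * η i j) = 0 := by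
  classical
  let Ψ : ((Fin N → ℂ) × (Fin N → ℂ)) →ₗ[ℂ] ((Σ i : s, Fin (TT (z i) (e i))) → ℂ) :=
    LinearMap.pi fun k => (lcoeff ℂ (k.2 : ℕ)).comp
      ((RR (z k.1) (e k.1) (ν k.1)).comp (sumL (η k.1)))
  have hfin : Module.finrank ℂ ((Σ i : s, Fin (TT (z i) (e i))) → ℂ) <
      Module.finrank ℂ ((Fin N → ℂ) × (Fin N → ℂ)) := by
    rw [Module.finrank_prod, Module.finrank_fintype_fun_eq_card, Module.finrank_fintype_fun_eq_card,
      Fintype.card_sigma, Fintype.card_fin]
    simp only [Fintype.card_fin]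
    rw [Finset.sum_coe_sort s fun i => TT (z i) (e i)]
    omega
  have hker := LinearMap.ker_ne_bot_of_finrank_lt (f := Ψ) hfin
  obtain ⟨x, hx, hx0⟩ := Submodule.exists_mem_ne_zero_of_ne_bot hker
  refine ⟨x.1, x.2, ?_, fun i hi => ?_⟩
  · by_contra hcon
    push Not at hcon
    apply hx0
    refine Prod.ext ?_ ?_
    · funext j
      exact (hcon j).1
    · funext j
      exact (hcon j).2
  · apply Polynomial.ext
    intro n
    rw [coeff_zero]
    by_cases hn : n < TT (z i) (e i)
    · have h1 : Ψ x = 0 := hx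
      exact congrFun h1 ⟨⟨i, hi⟩, ⟨n, hn⟩⟩
    · exact RR_coeff (sum_deg (hD i) (hη i hi) _ _) (not_lt.1 hn)

/-- **Simultaneous surjectivity.** -/
theorem indu (hD : ∀ i, 1 ≤ ∑ l, e i l) (s : Finset (ι)) :
    ∀ N : ℕ, ∑ i ∈ s, TT (z i) (e i) ≤ 2 * N →
      ∃ (η : ι → Fin N → ℂ[X]) (ν : ι → ℕ),
        (∀ i ∈ s, ∀ j, (η i j).natDegree ≤ ∑ l, e i l - 1) ∧
        ∀ y : ι → ℂ[X], (∀ i ∈ s, (y i).natDegree ≤ ∑ l, e i l) → ∃ a b : Fin N → ℂ,
          ∀ i ∈ s, RR (z i) (e i) (ν i) (∑ j, (C (a j) + X * C (b j)) * η i j) =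
            RR (z i) (e i) (ν i) (y i) := by
  classical
  induction s using Finset.induction_on with
  | empty =>
    intro N _
    exact ⟨fun _ _ => 0, fun _ => 0, by simp, fun y _ => ⟨0, 0, by simp⟩⟩
  | insert i0 s hi0 ih =>
    intro N hN
    rw [Finset.sum_insert hi0] at hN
    set T' := ∑ i ∈ s, TT (z i) (e i) with hT'
    obtain ⟨N', n, hNn, hcase⟩ : ∃ N' n, N = N' + n ∧ (2 * N' = T' ∨ 2 * N' = T' + 1) := by
      refine ⟨(T' + 1) / 2, N - (T' + 1) / 2, by omega, by omega⟩
    subst hNn
    obtain ⟨η', ν', hη', hsur⟩ := ih N' (by omega)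
    have hne : ∀ i ∈ s, i ≠ i0 := fun i hi h => hi0 (h ▸ hi)
    rcases hcase with hcase | hcase
    · -- no free parameter
      obtain ⟨ηn, hηn, hsn⟩ := block0 (z := z i0) (hD i0) (n := n) (by omega) (ν' i0)
      refine ⟨fun i => if i = i0 then Fin.append (fun _ => 0) ηn else Fin.append (η' i) fun _ => 0,
        ν', ?_, ?_⟩
      · intro i hi j
        beta_reduce
        rcases Finset.mem_insert.1 hi with h | h
        · subst h
          rw [if_pos rfl]
          refine Fin.addCases (fun j => ?_) (fun j => ?_) j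
          · rw [Fin.append_left]
            simp
          · rw [Fin.append_right]
            exact hηn j
        · rw [if_neg (hne i h)]
          refine Fin.addCases (fun j => ?_) (fun j => ?_) j
          · rw [Fin.append_left]
            exact hη' i h j
          · rw [Fin.append_right]
            simp
      · intro y hy
        obtain ⟨a', b', hab'⟩ := hsur y fun i hi => hy i (Finset.mem_insert_of_mem hi)
        obtain ⟨an, bn, habn⟩ := hsn (y i0) (hy i0 (Finset.mem_insert_self _ _))
        refine ⟨Fin.append a' an, Fin.append b' bn, fun i hi => ?_⟩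
        rw [Fin.sum_univ_add]
        rcases Finset.mem_insert.1 hi with h | h
        · subst h
          simp only [if_pos, Fin.append_left, Fin.append_right, mul_zero, Finset.sum_const_zero,
            zero_add]
          exact habn
        · simp only [if_neg (hne i h), Fin.append_left, Fin.append_right, mul_zero,
            Finset.sum_const_zero, add_zero]
          exact hab' i h
    · -- one free parameter
      obtain ⟨α, β, ⟨j0, hj0⟩, hker⟩ := kernel (z := z) hD s (N := N') (by omega) ν' hη'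
      obtain ⟨νn, η0, ηn, hη0, hηn, hsn⟩ := block1 (z := z i0) (hD i0) (n := n) (by omega) hj0
      refine ⟨fun i => if i = i0 then Fin.append (Pi.single j0 η0) ηn else
        Fin.append (η' i) fun _ => 0, Function.update ν' i0 νn, ?_, ?_⟩
      · intro i hi j
        beta_reduce
        rcases Finset.mem_insert.1 hi with h | h
        · subst h
          rw [if_pos rfl]
          refine Fin.addCases (fun j => ?_) (fun j => ?_) j
          · rw [Fin.append_left]
            by_cases hj : j = j0
            · subst hj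
              rw [Pi.single_eq_same]
              exact hη0
            · rw [Pi.single_eq_of_ne hj]
              simp
          · rw [Fin.append_right]
            exact hηn j
        · rw [if_neg (hne i h)]
          refine Fin.addCases (fun j => ?_) (fun j => ?_) j
          · rw [Fin.append_left]
            exact hη' i h j
          · rw [Fin.append_right]
            simp
      · intro y hy
        obtain ⟨a', b', hab'⟩ := hsur y fun i hi => hy i (Finset.mem_insert_of_mem hi)
        have hdeg : (y i0 - (C (a' j0) + X * C (b' j0)) * η0).natDegree ≤ ∑ l, e i0 l := by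
          refine (natDegree_sub_le _ _).trans (max_le (hy i0 (Finset.mem_insert_self _ _)) ?_)
          refine natDegree_mul_le.trans ?_
          have h1 : (C (a' j0) + X * C (b' j0)).natDegree ≤ 1 := by
            refine (natDegree_add_le _ _).trans (max_le (by simp) ?_)
            exact (natDegree_mul_C_le _ _).trans natDegree_X_le
          have h2 := hD i0
          omega
        obtain ⟨t, an, bn, habn⟩ := hsn _ hdeg
        refine ⟨Fin.append (a' + t • α) an, Fin.append (b' + t • β) bn, fun i hi => ?_⟩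
        rw [Fin.sum_univ_add]
        rcases Finset.mem_insert.1 hi with h | h
        · subst h
          simp only [if_pos, Fin.append_left, Fin.append_right, Function.update_self]
          have e1 : ∑ j : Fin N', (C ((a' + t • α) j) + X * C ((b' + t • β) j)) *
              (Pi.single j0 η0 : Fin N' → ℂ[X]) j =
              (C (a' j0) + X * C (b' j0)) * η0 + C t * ((C (α j0) + X * C (β j0)) * η0) := by
            rw [Finset.sum_eq_single j0]
            · rw [Pi.single_eq_same]
              simp only [Pi.add_apply, Pi.smul_apply, smul_eq_mul, C_add, C_mul]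
              ring
            · intro j _ hj
              rw [Pi.single_eq_of_ne hj, mul_zero]
            · intro h
              exact absurd (Finset.mem_univ _) h
          rw [e1, add_assoc, map_add, habn, map_sub]
          ring
        · simp only [if_neg (hne i h), Fin.append_left, Fin.append_right, mul_zero,
            Finset.sum_const_zero, add_zero, Function.update_of_ne (hne i h)]
          have e1 : ∑ j : Fin N', (C ((a' + t • α) j) + X * C ((b' + t • β) j)) * η' i j =
              ∑ j : Fin N', (C (a' j) + X * C (b' j)) * η' i j +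
              C t * ∑ j : Fin N', (C (α j) + X * C (β j)) * η' i j := by
            rw [Finset.mul_sum, ← Finset.sum_add_distrib]
            refine Finset.sum_congr rfl fun j _ => ?_
            simp only [Pi.add_apply, Pi.smul_apply, smul_eq_mul, C_add, C_mul]
            ring
          rw [e1, map_add, hab' i h, ← smul_eq_C_mul, map_smul, hker i h, smul_zero, add_zero]

/-- the part divisible by the modulus -/
theorem pat_poly {v : ℕ} {e : Fin v → ℕ} (he : ∀ l, 1 ≤ e l) (ν : ℕ) {g : ℂ[X]}
    (hgd : g.natDegree ≤ v) :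
    ∃ (c : Fin v → ℂ) (lam : ℂ), ∀ x : ℂ, (hh e ν * g).eval x =
      - (lam * ∏ l : Fin v, (1 + x * (((l : ℕ) : ℂ) + 1 + ν)) ^ e l +
        ∑ l : Fin v, (∏ l' ∈ Finset.univ.erase l, (1 + x * (((l' : ℕ) : ℂ) + 1 + ν)) ^ e l') *
          ((e l : ℂ) * (1 + x * (((l : ℕ) : ℂ) + 1 + ν)) ^ (e l - 1) * (x * c l))) := by
  classical
  let lf : Fin v → ℂ[X] := fun l => 1 + X * C (((l : ℕ) : ℂ) + 1 + ν)
  have hlne : ∀ l : Fin v, (((l : ℕ) : ℂ) + 1 + ν) ≠ 0 := fun l => lne (l : ℕ) ν
  have hld : ∀ l, (lf l).natDegree = 1 := fun l => lin_deg (l : ℕ) ν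
  have hle' : ∀ l (x : ℂ), (lf l).eval x = 1 + x * (((l : ℕ) : ℂ) + 1 + ν) := by
    intro l x
    simp only [lf, eval_add, eval_one, eval_mul, eval_X, eval_C]
  set lam : ℂ := - g.eval 0 with hlam
  set g1 : ℂ[X] := (g - C (g.eval 0) * ∏ l, lf l).divX with hg1
  have hg1' : g = C (g.eval 0) * ∏ l, lf l + X * g1 := by
    have h1 := X_mul_divX_add (g - C (g.eval 0) * ∏ l, lf l)
    have h2 : (g - C (g.eval 0) * ∏ l, lf l).coeff 0 = 0 := by
      rw [coeff_zero_eq_eval_zero, eval_sub, eval_mul, eval_C, eval_prod]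
      have : ∀ l ∈ (Finset.univ : Finset (Fin v)), (lf l).eval 0 = 1 := fun l _ => by
        rw [hle']
        ring
      rw [Finset.prod_congr rfl this]
      simp
    rw [h2, C_0, add_zero, ← hg1] at h1
    rw [h1]
    ring
  have hg1d : g1.natDegree ≤ v - 1 := by
    rw [hg1, natDegree_divX_eq_natDegree_tsub_one]
    have h1 : (C (g.eval 0) * ∏ l, lf l).natDegree ≤ v := by
      refine (natDegree_C_mul_le _ _).trans ?_
      refine (natDegree_prod_le _ _).trans ?_
      rw [Finset.sum_congr rfl fun l _ => hld l]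
      simp
    have h2 := (natDegree_sub_le g (C (g.eval 0) * ∏ l, lf l)).trans (max_le hgd h1)
    omega
  let node : Fin v → ℂ := fun l => -1 / (((l : ℕ) : ℂ) + 1 + ν)
  have hnode : Function.Injective node := by
    intro l l' hll
    simp only [node] at hll
    rw [div_eq_div_iff (hlne l) (hlne l')] at hll
    apply Fin.ext
    have : ((l' : ℕ) : ℂ) = (l : ℕ) := by linear_combination -hll
    exact_mod_cast this.symm
  have hval : ∀ l l', (lf l).eval (node l') = 0 ↔ l = l' := by
    intro l l'
    rw [hle']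
    constructor
    · intro h1
      apply hnode
      have : node l' * (((l : ℕ) : ℂ) + 1 + ν) = -1 := by linear_combination h1
      change -1 / (((l : ℕ) : ℂ) + 1 + ν) = node l'
      rw [div_eq_iff (hlne l), this]
    · rintro rfl
      simp only [node]
      rw [div_mul_cancel₀ _ (hlne l)]
      ring
  let den : Fin v → ℂ := fun l => (e l : ℂ) * ∏ l' ∈ Finset.univ.erase l, (lf l').eval (node l)
  have hden : ∀ l, den l ≠ 0 := by
    intro l
    refine mul_ne_zero ?_ ?_
    · have := he l
      exact_mod_cast (by omega : e l ≠ 0)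
    · rw [Finset.prod_ne_zero_iff]
      intro l' hl'
      rw [Ne, hval]
      exact Finset.ne_of_mem_erase hl'
  let c : Fin v → ℂ := fun l => - g1.eval (node l) / den l
  have hlag : g1 = - ∑ l, C ((e l : ℂ) * c l) * ∏ l' ∈ Finset.univ.erase l, lf l' := by
    rcases Nat.eq_zero_or_pos v with hu | hu
    · subst hu
      have h1 : g.natDegree = 0 := by omega
      have h2 : g = C (g.eval 0) := by
        conv_lhs => rw [eq_C_of_natDegree_eq_zero h1]
        rw [coeff_zero_eq_eval_zero]
      have h3 : X * g1 = 0 := by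
        have h4 := hg1'
        simp only [Finset.univ_eq_empty, Finset.prod_empty, mul_one] at h4
        rw [← h2] at h4
        linear_combination -h4
      have h5 : g1 = 0 := by
        rcases mul_eq_zero.1 h3 with h | h
        · exact absurd h X_ne_zero
        · exact h
      rw [h5]
      simp
    rw [eq_neg_iff_add_eq_zero]
    refine eq_zero_of_natDegree_lt_card_of_eval_eq_zero _ (f := node) hnode ?_ ?_
    · intro l0
      rw [eval_add, eval_finsetSum, Finset.sum_eq_single l0]
      · rw [eval_mul, eval_C, eval_prod]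
        have : (e l0 : ℂ) * c l0 * ∏ l' ∈ Finset.univ.erase l0, (lf l').eval (node l0) =
            c l0 * den l0 := by
          simp only [den]
          ring
        rw [this]
        simp only [c]
        rw [div_mul_cancel₀ _ (hden l0)]
        ring
      · intro l _ hl
        rw [eval_mul, eval_prod]
        rw [Finset.prod_eq_zero (i := l0), mul_zero]
        · exact Finset.mem_erase.2 ⟨fun h => hl h.symm, Finset.mem_univ _⟩
        · rw [hval]
      · intro h
        exact absurd (Finset.mem_univ _) h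
    · rw [Fintype.card_fin]
      refine lt_of_le_of_lt (natDegree_add_le _ _) (max_lt (by omega) ?_)
      refine lt_of_le_of_lt (natDegree_sum_le_of_forall_le (n := v - 1) _ _ ?_) (by omega)
      intro l _
      refine (natDegree_C_mul_le _ _).trans ?_
      refine (natDegree_prod_le _ _).trans ?_
      rw [Finset.sum_congr rfl fun l _ => hld l]
      simp
  refine ⟨c, lam, fun x => ?_⟩
  rw [eval_mul]
  conv_lhs => rw [hg1', hlag]
  simp only [eval_add, eval_mul, eval_C, eval_X, eval_neg, eval_finsetSum, eval_prod]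
  have hhe : (hh e ν).eval x = ∏ l : Fin v, (1 + x * (((l : ℕ) : ℂ) + 1 + ν)) ^ (e l - 1) := by
    unfold hh
    rw [eval_prod]
    refine Finset.prod_congr rfl fun l _ => ?_
    rw [eval_pow]
    exact congrArg (fun t => t ^ (e l - 1)) (hle' l x)
  simp only [hle']
  rw [hhe]
  have e1 : ∏ l : Fin v, (1 + x * (((l : ℕ) : ℂ) + 1 + ν)) ^ e l =
      (∏ l : Fin v, (1 + x * (((l : ℕ) : ℂ) + 1 + ν)) ^ (e l - 1)) *
        ∏ l : Fin v, (1 + x * (((l : ℕ) : ℂ) + 1 + ν)) := by
    rw [← Finset.prod_mul_distrib]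
    refine Finset.prod_congr rfl fun l _ => ?_
    rw [← pow_succ, Nat.sub_add_cancel (he l)]
  have e2 : ∀ l : Fin v, (∏ l' ∈ Finset.univ.erase l, (1 + x * (((l' : ℕ) : ℂ) + 1 + ν)) ^ e l') *
      (1 + x * (((l : ℕ) : ℂ) + 1 + ν)) ^ (e l - 1) =
      (∏ l : Fin v, (1 + x * (((l : ℕ) : ℂ) + 1 + ν)) ^ (e l - 1)) *
        ∏ l' ∈ Finset.univ.erase l, (1 + x * (((l' : ℕ) : ℂ) + 1 + ν)) := by
    intro l
    rw [← Finset.mul_prod_erase Finset.univ
      (fun l : Fin v => (1 + x * (((l : ℕ) : ℂ) + 1 + ν)) ^ (e l - 1)) (Finset.mem_univ l)]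
    rw [mul_assoc, ← Finset.prod_mul_distrib, mul_comm]
    congr 1
    refine Finset.prod_congr rfl fun l' _ => ?_
    rw [← pow_succ, Nat.sub_add_cancel (he l')]
  have e3 : ∑ l : Fin v, (∏ l' ∈ Finset.univ.erase l, (1 + x * (((l' : ℕ) : ℂ) + 1 + ν)) ^ e l') *
        ((e l : ℂ) * (1 + x * (((l : ℕ) : ℂ) + 1 + ν)) ^ (e l - 1) * (x * c l)) =
      (∏ l : Fin v, (1 + x * (((l : ℕ) : ℂ) + 1 + ν)) ^ (e l - 1)) * (x *
        ∑ l : Fin v, (e l : ℂ) * c l * ∏ l' ∈ Finset.univ.erase l,
          (1 + x * (((l' : ℕ) : ℂ) + 1 + ν))) := by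
    rw [Finset.mul_sum, Finset.mul_sum]
    refine Finset.sum_congr rfl fun l _ => ?_
    have := e2 l
    calc (∏ l' ∈ Finset.univ.erase l, (1 + x * (((l' : ℕ) : ℂ) + 1 + ν)) ^ e l') *
        ((e l : ℂ) * (1 + x * (((l : ℕ) : ℂ) + 1 + ν)) ^ (e l - 1) * (x * c l)) =
        ((∏ l' ∈ Finset.univ.erase l, (1 + x * (((l' : ℕ) : ℂ) + 1 + ν)) ^ e l') *
          (1 + x * (((l : ℕ) : ℂ) + 1 + ν)) ^ (e l - 1)) * ((e l : ℂ) * (x * c l)) := by ring
      _ = _ := by
        rw [this]
        ring
  rw [e3, e1, hlam]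
  ring

/-- **The tangent map is surjective.** -/
theorem surjS [Fintype ι] (he : ∀ i l, 1 ≤ e i l) (hD : ∀ i, 1 ≤ ∑ l, e i l) {N : ℕ}
    (hle : ∑ i, TT (z i) (e i) ≤ 2 * N) :
    ∃ (η : ι → Fin N → ℂ[X]) (ν : ι → ℕ),
      (∀ i j, (η i j).natDegree ≤ ∑ l, e i l - 1) ∧
      ∀ y : ι → ℂ[X], (∀ i, (y i).natDegree ≤ ∑ l, e i l) →
        ∃ (a b : Fin N → ℂ) (c : ∀ i, Fin (u i) → ℂ) (lam : ι → ℂ), ∀ i (x : ℂ),
          (y i).eval x = ∑ j, (a j + x * b j) * (η i j).eval x -
            (if z i then 0 else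
              (lam i * ∏ l : Fin (u i), (1 + x * (((l : ℕ) : ℂ) + 1 + ν i)) ^ e i l +
              ∑ l : Fin (u i), (∏ l' ∈ Finset.univ.erase l,
                (1 + x * (((l' : ℕ) : ℂ) + 1 + ν i)) ^ e i l') *
                ((e i l : ℂ) * (1 + x * (((l : ℕ) : ℂ) + 1 + ν i)) ^ (e i l - 1) *
                  (x * c i l)))) := by
  classical
  obtain ⟨η, ν, hη, hsur⟩ := indu (z := z) hD Finset.univ N hle
  refine ⟨η, ν, fun i j => hη i (Finset.mem_univ i) j, fun y hy => ?_⟩
  obtain ⟨a, b, hab⟩ := hsur y fun i _ => hy i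
  have hmain : ∀ i, ∃ (c : Fin (u i) → ℂ) (lam : ℂ), ∀ x : ℂ,
      (y i).eval x = ∑ j, (a j + x * b j) * (η i j).eval x -
            (if z i then 0 else
              (lam * ∏ l : Fin (u i), (1 + x * (((l : ℕ) : ℂ) + 1 + ν i)) ^ e i l +
              ∑ l : Fin (u i), (∏ l' ∈ Finset.univ.erase l,
                (1 + x * (((l' : ℕ) : ℂ) + 1 + ν i)) ^ e i l') *
                ((e i l : ℂ) * (1 + x * (((l : ℕ) : ℂ) + 1 + ν i)) ^ (e i l - 1) *
                  (x * c l)))) := by
    intro i
    have h1 := hab i (Finset.mem_univ i)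
    have hev : ∀ x : ℂ, (∑ j, (C (a j) + X * C (b j)) * η i j).eval x =
        ∑ j, (a j + x * b j) * (η i j).eval x := by
      intro x
      simp only [eval_finsetSum, eval_mul, eval_add, eval_C, eval_X]
    by_cases hz : z i = true
    · refine ⟨fun _ => 0, 0, fun x => ?_⟩
      have h2 : ∑ j, (C (a j) + X * C (b j)) * η i j = y i := by
        unfold RR at h1
        rw [if_pos hz] at h1
        exact h1
      rw [if_pos hz, sub_zero, ← hev, h2]
    · have h2 : hm (e i) (ν i) ∣ y i - ∑ j, (C (a j) + X * C (b j)) * η i j := by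
        rw [← modByMonic_eq_zero_iff_dvd (hm_monic _ _)]
        unfold RR at h1
        rw [if_neg hz] at h1
        have h3 : modByMonicHom (hm (e i) (ν i)) (y i - ∑ j, (C (a j) + X * C (b j)) * η i j) = 0 := by
          rw [map_sub, h1, sub_self]
        exact h3
      have h3 : hh (e i) (ν i) ∣ y i - ∑ j, (C (a j) + X * C (b j)) * η i j :=
        (Dvd.intro _ rfl).trans h2
      obtain ⟨g, hg⟩ := h3
      have hgd : g.natDegree ≤ u i := by
        by_cases hg0 : g = 0
        · rw [hg0]
          simp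
        have h4 : (hh (e i) (ν i) * g).natDegree = ∑ l, (e i l - 1) + g.natDegree := by
          rw [natDegree_mul (hh_ne _ _) hg0, hh_deg]
        have h5 : (y i - ∑ j, (C (a j) + X * C (b j)) * η i j).natDegree ≤ ∑ l, e i l :=
          (natDegree_sub_le _ _).trans (max_le (hy i)
            (sum_deg (hD i) (fun j => hη i (Finset.mem_univ i) j) _ _))
        rw [hg, h4] at h5
        have hsum : ∑ l, e i l = ∑ l, (e i l - 1) + u i := by
          have : ∀ l ∈ (Finset.univ : Finset (Fin (u i))), e i l = (e i l - 1) + 1 := fun l _ => by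
            have := he i l
            omega
          rw [Finset.sum_congr rfl this, Finset.sum_add_distrib]
          simp
        omega
      obtain ⟨c, lam, hcl⟩ := pat_poly (he i) (ν i) hgd
      refine ⟨c, lam, fun x => ?_⟩
      rw [if_neg hz, sub_eq_add_neg, ← hcl x, ← hg, ← hev, eval_sub]
      ring
  choose c lam hcl using hmain
  exact ⟨a, b, c, lam, hcl⟩

end Pool.Agent.Helper568.LM
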