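import Pool.Agent.Helper568_LM.CurvesS
import Pool.Agent.Helper568_LL.Spec

/-!
Two double coverings of the line with two branch points each.
-/

set_option autoImplicit false

namespace Pool.Agent.Helper568.LM

open Pool.Agent.Helper568.LL

/-- the two quadratic forms `f + x g` in `P`, `R` are products of linear forms -/
theorem factors {kk : Type} [Field kk] [IsAlgClosed kk] {A0 B0 : kk} (h : A0 ≠ B0) (x : kk) :
    ∃ a b : kk, (a ≠ 0 ∨ b ≠ 0) ∧ ∀ P R : kk,
      (A0 * R ^ 2 - B0 * P ^ 2) / (A0 - B0) + x * ((P ^ 2 - R ^ 2) / (A0 - B0)) =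
        (a * P + b * R) * (a * P + (-b) * R) := by
  have hd : A0 - B0 ≠ 0 := sub_ne_zero.2 h
  obtain ⟨a, ha⟩ := IsAlgClosed.exists_pow_nat_eq ((x - B0) / (A0 - B0)) (n := 2) (by norm_num)
  obtain ⟨b, hb⟩ := IsAlgClosed.exists_pow_nat_eq (-((A0 - x) / (A0 - B0))) (n := 2) (by norm_num)
  refine ⟨a, b, ?_, fun P R => ?_⟩
  · by_contra hcon
    push Not at hcon
    rw [hcon.1, zero_pow (by norm_num), eq_comm, div_eq_zero_iff] at ha
    rw [hcon.2, zero_pow (by norm_num), eq_comm, neg_eq_zero, div_eq_zero_iff] at hb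
    have h1 : x - B0 = 0 := by tauto
    have h2 : A0 - x = 0 := by tauto
    apply hd
    linear_combination h1 + h2
  · have e1 : (a * P + b * R) * (a * P + (-b) * R) = a ^ 2 * P ^ 2 - b ^ 2 * R ^ 2 := by ring
    rw [e1, ha, hb]
    field_simp
    ring

/-- normalisation of four linear forms -/
theorem four_forms {kk : Type} [Field kk] [IsAlgClosed kk] (a b : Fin 4 → kk)
    (h : ∀ l, a l ≠ 0 ∨ b l ≠ 0) : ∃ (z0 : kk) (c : Fin 4 → kk) (s : kk), ∀ P R : kk,
      ∏ l, (a l * P + b l * (z0 * P + R)) = s ^ 2 * ∏ l, (P + c l * R) := by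
  have : Infinite kk := IsAlgClosed.instInfinite
  obtain ⟨z0, hz⟩ := exists_good a b h
  obtain ⟨s, hs⟩ := IsAlgClosed.exists_pow_nat_eq (∏ l, (a l + b l * z0)) (n := 2) (by norm_num)
  refine ⟨z0, fun l => b l / (a l + b l * z0), s, fun P R => ?_⟩
  rw [hs, ← Finset.prod_mul_distrib]
  refine Finset.prod_congr rfl fun l _ => ?_
  have := hz l
  field_simp
  ring

theorem entire_mul_zero {h1 h2 : ℂ → ℂ} (d1 : Differentiable ℂ h1) (d2 : Differentiable ℂ h2)
    (h : ∀ z, h1 z * h2 z = 0) : (∀ z, h1 z = 0) ∨ ∀ z, h2 z = 0 := by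
  by_contra hcon
  push Not at hcon
  obtain ⟨⟨z1, hz1⟩, ⟨z2, hz2⟩⟩ := hcon
  -- near `z1` the function `h1` is not zero, so `h2 = 0` near `z1`, hence everywhere
  have a2 : AnalyticOnNhd ℂ h2 Set.univ := fun z _ => d2.analyticAt z
  have hev : ∀ᶠ z in nhds z1, h2 z = 0 := by
    filter_upwards [d1.continuous.continuousAt.eventually_ne hz1] with z hz
    exact (mul_eq_zero.1 (h z)).resolve_left hz
  have := a2.eqOn_zero_of_preconnected_of_eventuallyEq_zero isPreconnected_univ (Set.mem_univ z1) hev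
  exact hz2 (this (Set.mem_univ z2))

theorem an_pair (A0 B0 A1 B1 : ℂ) : ∃ f g v0 v1 : ℂ → ℂ, Differentiable ℂ f ∧ Differentiable ℂ g ∧
    Differentiable ℂ v0 ∧ Differentiable ℂ v1 ∧ (∀ z, f z ≠ 0 ∨ g z ≠ 0) ∧
    (∀ z, v0 z ^ 2 = (f z + A0 * g z) * (f z + B0 * g z)) ∧
    (∀ z, v1 z ^ 2 = (f z + A1 * g z) * (f z + B1 * g z)) ∧
    ∃ z z', f z' * g z - g z' * f z ≠ 0 := by
  by_cases hAB : A0 = B0
  · subst hAB
    obtain ⟨f, g, v, hf, hg, hv, hfg, hvk, hne⟩ := an_two (k := 2) (by norm_num) ![A1, B1]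
    refine ⟨f, g, fun z => f z + A0 * g z, v, hf, hg, hf.add (hg.const_mul _), hv, hfg,
      fun z => by ring, fun z => ?_, hne⟩
    rw [hvk, Fin.prod_univ_two]
    simp
  · have hd : A0 - B0 ≠ 0 := sub_ne_zero.2 hAB
    obtain ⟨a1, b1, h1, hq1⟩ := factors hAB A1
    obtain ⟨a2, b2, h2, hq2⟩ := factors hAB B1
    obtain ⟨z0, c, s, hc⟩ := four_forms ![a1, a1, a2, a2] ![b1, -b1, b2, -b2] (by
      intro l
      fin_cases l
      · simpa using h1
      · simpa using h1
      · simpa using h2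
      · simpa using h2)
    obtain ⟨P, R', V, hP, hR', hV, hPR, hVk, z1, z2, hne⟩ := an_four 1 c
    set R : ℂ → ℂ := fun z => z0 * P z + R' z with hR
    have hRd : Differentiable ℂ R := (hP.const_mul _).add hR'
    have hPRne : ∀ z, P z ≠ 0 ∨ R z ≠ 0 := by
      intro z
      by_contra hcon
      push Not at hcon
      rcases hPR z with h | h
      · exact h hcon.1
      · apply h
        have := hcon.2
        simp only [hR] at this
        rw [hcon.1] at this
        linear_combination this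
    have hrel : ∀ z z', R z' ^ 2 * P z ^ 2 - P z' ^ 2 * R z ^ 2 =
        (R z' * P z - P z' * R z) * (R z' * P z + P z' * R z) := fun z z' => by ring
    have hnc : ∃ z', R z' ^ 2 * P z1 ^ 2 - P z' ^ 2 * R z1 ^ 2 ≠ 0 := by
      by_contra hcon
      push Not at hcon
      have h3 : ∀ z', (R z' * P z1 - P z' * R z1) * (R z' * P z1 + P z' * R z1) = 0 := by
        intro z'
        rw [← hrel]
        exact hcon z'
      have hfirst : (∀ z', R z' * P z1 - P z' * R z1 = 0) → False := by
        intro h4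
        apply hne
        have h5 := h4 z2
        simp only [hR] at h5
        linear_combination -h5
      have hdi : (∀ z', R z' * P z1 - P z' * R z1 = 0) ∨
          ∀ z', R z' * P z1 + P z' * R z1 = 0 :=
        entire_mul_zero (h1 := fun z' => R z' * P z1 - P z' * R z1)
          (h2 := fun z' => R z' * P z1 + P z' * R z1) ((hRd.mul_const _).sub (hP.mul_const _))
          ((hRd.mul_const _).add (hP.mul_const _)) h3
      rcases hdi with h4 | h4
      · exact hfirst h4
      · have h5 := h4 z1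
        have h6 : R z1 * P z1 = 0 := by linear_combination h5 / 2
        rcases mul_eq_zero.1 h6 with h7 | h7
        · refine hfirst fun z' => ?_
          have h8 := h4 z'
          rw [h7] at h8 ⊢
          linear_combination h8
        · refine hfirst fun z' => ?_
          have h8 := h4 z'
          rw [h7] at h8 ⊢
          linear_combination -h8
    obtain ⟨z3, hz3⟩ := hnc
    refine ⟨fun z => (A0 * R z ^ 2 - B0 * P z ^ 2) / (A0 - B0),
      fun z => (P z ^ 2 - R z ^ 2) / (A0 - B0), fun z => P z * R z, fun z => s * V z,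
      by fun_prop, by fun_prop, by fun_prop, by fun_prop, fun z => ?_, fun z => ?_, fun z => ?_,
      ⟨z1, z3, ?_⟩⟩
    · by_contra hcon
      push Not at hcon
      obtain ⟨h3, h4⟩ := hcon
      rw [div_eq_zero_iff] at h3 h4
      have h5 : A0 * R z ^ 2 - B0 * P z ^ 2 = 0 := by tauto
      have h6 : P z ^ 2 - R z ^ 2 = 0 := by tauto
      have h7 : (A0 - B0) * P z ^ 2 = 0 := by linear_combination h5 + A0 * h6
      have h8 : P z ^ 2 = 0 := (mul_eq_zero.1 h7).resolve_left hd
      have h9 : R z ^ 2 = 0 := by linear_combination h8 - h6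
      rcases hPRne z with h | h
      · exact h (pow_eq_zero_iff two_ne_zero |>.1 h8)
      · exact h (pow_eq_zero_iff two_ne_zero |>.1 h9)
    · field_simp
      ring
    · beta_reduce
      rw [hq1, hq2, mul_pow]
      have h3 := hVk z
      rw [mul_one] at h3
      simp only [pow_one] at h3
      rw [h3, ← hc (P z) (R' z), Fin.prod_univ_four]
      simp only [Matrix.cons_val_zero, Matrix.cons_val_one, Matrix.cons_val, hR]
      ring
    · beta_reduce
      intro h3
      apply hz3
      have h4 : (A0 * R z3 ^ 2 - B0 * P z3 ^ 2) / (A0 - B0) * ((P z1 ^ 2 - R z1 ^ 2) / (A0 - B0)) -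
          (P z3 ^ 2 - R z3 ^ 2) / (A0 - B0) * ((A0 * R z1 ^ 2 - B0 * P z1 ^ 2) / (A0 - B0)) =
          (R z3 ^ 2 * P z1 ^ 2 - P z3 ^ 2 * R z1 ^ 2) / (A0 - B0) := by
        field_simp
        ring
      rw [h4, div_eq_zero_iff] at h3
      tauto

theorem finite_quad {kk : Type} [Field kk] {α β γ : kk} (h : α ≠ 0 ∨ β ≠ 0 ∨ γ ≠ 0) :
    {z : kk | α * z ^ 2 + β * z + γ = 0}.Finite := by
  classical
  set p : Polynomial kk := Polynomial.C α * Polynomial.X ^ 2 + Polynomial.C β * Polynomial.X +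
    Polynomial.C γ with hp
  have hp0 : p ≠ 0 := by
    intro h0
    have h1 := congrArg (fun q => Polynomial.coeff q 2) h0
    have h2 := congrArg (fun q => Polynomial.coeff q 1) h0
    have h3 := congrArg (fun q => Polynomial.coeff q 0) h0
    simp [hp, Polynomial.coeff_X, Polynomial.coeff_C] at h1 h2 h3
    tauto
  refine (p.roots.toFinset.finite_toSet).subset ?_
  intro z hz
  rw [Finset.mem_coe, Multiset.mem_toFinset, Polynomial.mem_roots hp0]
  simp only [hp, Polynomial.IsRoot.def, Polynomial.eval_add, Polynomial.eval_mul, Polynomial.eval_C,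
    Polynomial.eval_pow, Polynomial.eval_X]
  exact hz

theorem ar_pair {kk : Type} [Field kk] [CharZero kk] [IsAlgClosed kk] (A0 B0 A1 B1 : kk) :
    ∃ T : Finset kk, ∀ L : Subfield kk, (∀ x ∈ T, x ∈ L) →
      {z : kk | z ∈ L ∧ (∃ v ∈ L, v ^ 2 = (z + A0) * (z + B0)) ∧
        ∃ v ∈ L, v ^ 2 = (z + A1) * (z + B1)}.Infinite := by
  classical
  by_cases hAB : A0 = B0
  · subst hAB
    refine ⟨{A0, A1, B1}, fun L hL => ?_⟩
    refine (infinite_two (n := 2) (by norm_num) A1 B1 L (hL _ (by simp)) (hL _ (by simp))).mono ?_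
    rintro z ⟨hz, w, hw, h⟩
    exact ⟨hz, ⟨z + A0, L.add_mem hz (hL _ (by simp)), by ring⟩, w, hw, by rw [h]; ring⟩
  · have hd : A0 - B0 ≠ 0 := sub_ne_zero.2 hAB
    obtain ⟨a1, b1, h1, hq1⟩ := factors hAB A1
    obtain ⟨a2, b2, h2, hq2⟩ := factors hAB B1
    obtain ⟨z0, c, s, hc⟩ := four_forms ![a1, a1, a2, a2] ![b1, -b1, b2, -b2] (by
      intro l
      fin_cases l
      · simpa using h1
      · simpa using h1
      · simpa using h2
      · simpa using h2)
    obtain ⟨T, hT⟩ := infinite_quartic (c 0) (c 1) (c 2) (c 3)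
    refine ⟨T ∪ {A0, B0, z0, s}, fun L hL => ?_⟩
    have hA0L : A0 ∈ L := hL _ (by simp)
    have hB0L : B0 ∈ L := hL _ (by simp)
    have hz0L : z0 ∈ L := hL _ (by simp)
    have hsL : s ∈ L := hL _ (by simp)
    have hdL : A0 - B0 ∈ L := L.sub_mem hA0L hB0L
    have hinf := hT L fun x hx => hL x (by simp [hx])
    intro hfin
    apply hinf
    set Z : Set kk := {z : kk | z ∈ L ∧ (∃ v ∈ L, v ^ 2 = (z + A0) * (z + B0)) ∧
        ∃ v ∈ L, v ^ 2 = (z + A1) * (z + B1)} with hZ
    -- the exceptional set and the fibres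
    have hexc : {z : kk | (z0 ^ 2 - 1) * z ^ 2 + 2 * z0 * z + 1 = 0}.Finite :=
      finite_quad (Or.inr (Or.inr one_ne_zero))
    have hfib : ∀ ζ : kk, {z : kk | ((A0 + ζ) * z0 ^ 2 - (B0 + ζ)) * z ^ 2 +
        (2 * z0 * (A0 + ζ)) * z + (A0 + ζ) = 0}.Finite := by
      intro ζ
      apply finite_quad
      by_contra hcon
      push Not at hcon
      obtain ⟨h3, -, h4⟩ := hcon
      apply hd
      rw [h4] at h3
      linear_combination h4 + h3
    refine (hexc.union (hfin.biUnion fun ζ _ => hfib ζ)).subset ?_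
    rintro z ⟨hz, w, hw, hwz⟩
    set R : kk := z0 * z + 1 with hR
    have hRL : R ∈ L := L.add_mem (L.mul_mem hz0L hz) L.one_mem
    by_cases hg : z ^ 2 - R ^ 2 = 0
    · left
      change (z0 ^ 2 - 1) * z ^ 2 + 2 * z0 * z + 1 = 0
      rw [hR] at hg
      linear_combination -hg
    · right
      rw [Set.mem_iUnion₂]
      set f : kk := (A0 * R ^ 2 - B0 * z ^ 2) / (A0 - B0) with hf
      set g : kk := (z ^ 2 - R ^ 2) / (A0 - B0) with hg'
      have hg0 : g ≠ 0 := div_ne_zero hg hd
      have hfL : f ∈ L := L.div_mem (L.sub_mem (L.mul_mem hA0L (L.pow_mem hRL 2))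
        (L.mul_mem hB0L (L.pow_mem hz 2))) hdL
      have hgL : g ∈ L := L.div_mem (L.sub_mem (L.pow_mem hz 2) (L.pow_mem hRL 2)) hdL
      have hq1' := hq1 z R
      have hq2' := hq2 z R
      rw [← hf, ← hg'] at hq1' hq2'
      refine ⟨f / g, ⟨L.div_mem hfL hgL, ⟨z * R / g, L.div_mem (L.mul_mem hz hRL) hgL, ?_⟩,
        s * w / g, L.div_mem (L.mul_mem hsL hw) hgL, ?_⟩, ?_⟩
      · have e1 : f + A0 * g = z ^ 2 := by
          rw [hf, hg']
          field_simp
          ring
        have e2 : f + B0 * g = R ^ 2 := by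
          rw [hf, hg']
          field_simp
          ring
        have e3 : (f / g + A0) * (f / g + B0) = (f + A0 * g) * (f + B0 * g) / g ^ 2 := by
          field_simp
        rw [e3, e1, e2, div_pow, mul_pow]
      · have e3 : (f / g + A1) * (f / g + B1) = (f + A1 * g) * (f + B1 * g) / g ^ 2 := by
          field_simp
        rw [e3, hq1', hq2', div_pow, mul_pow, hwz]
        congr 1
        have h3 := hc z 1
        simp only [Fin.prod_univ_four] at h3
        simp only [Matrix.cons_val_zero, Matrix.cons_val_one, Matrix.cons_val, mul_one] at h3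
        rw [← hR] at h3
        linear_combination -h3
      · change ((A0 + f / g) * z0 ^ 2 - (B0 + f / g)) * z ^ 2 +
          (2 * z0 * (A0 + f / g)) * z + (A0 + f / g) = 0
        have e1 : ((A0 + f / g) * z0 ^ 2 - (B0 + f / g)) * z ^ 2 +
          (2 * z0 * (A0 + f / g)) * z + (A0 + f / g) =
            (A0 + f / g) * R ^ 2 - (B0 + f / g) * z ^ 2 := by
          rw [hR]
          ring
        have e4 : f / g = (A0 * R ^ 2 - B0 * z ^ 2) / (z ^ 2 - R ^ 2) := by
          rw [hf, hg']
          field_simp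
        rw [e1, e4]
        field_simp
        ring

variable {S : ℕ}

theorem anS_pair {k : Fin S → ℕ} {i0 i1 : Fin S} (hi : i0 ≠ i1) {a b : ℕ} (ha : k i0 = 2 * a)
    (hb : k i1 = 2 * b) : AnS k (fun i => if i = i0 ∨ i = i1 then 2 else 0) (fun i _ => k i / 2) := by
  intro c
  obtain ⟨f, g, v0, v1, hf, hg, hv0, hv1, hfg, h0, h1, hne⟩ :=
    an_pair (c i0 0) (c i0 1) (c i1 0) (c i1 1)
  refine ⟨f, g, fun i => if i = i0 then v0 else if i = i1 then v1 else fun _ => 1, hf, hg,
    fun i => ?_, hfg, fun i z => ?_, hne⟩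
  · beta_reduce
    split_ifs
    · exact hv0
    · exact hv1
    · exact differentiable_const _
  · by_cases h2 : i = i0
    · subst h2
      simp only [if_true, true_or]
      have e1 : k i / 2 = a := by omega
      rw [e1, Finset.prod_range_succ, Finset.prod_range_one, ← mul_pow, ← h0, ← pow_mul, ha]
    · by_cases h3 : i = i1
      · subst h3
        simp only [if_neg h2, if_true, or_true]
        have e1 : k i / 2 = b := by omega
        rw [e1, Finset.prod_range_succ, Finset.prod_range_one, ← mul_pow, ← h1, ← pow_mul, hb]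
      · simp only [h2, h3, or_self]
        simp

theorem arS_pair {k : Fin S → ℕ} {i0 i1 : Fin S} (hi : i0 ≠ i1) {a b : ℕ} (ha : k i0 = 2 * a)
    (hb : k i1 = 2 * b) : ArS k (fun i => if i = i0 ∨ i = i1 then 2 else 0) (fun i _ => k i / 2) := by
  intro kk _ _ _ c
  obtain ⟨T, hT⟩ := ar_pair (c i0 0) (c i0 1) (c i1 0) (c i1 1)
  refine ⟨T, fun L hL => (hT L hL).mono ?_⟩
  rintro z ⟨hz, ⟨v0, hv0, h0⟩, v1, hv1, h1⟩
  refine ⟨hz, fun i => ?_⟩
  by_cases h2 : i = i0
  · subst h2
    refine ⟨v0, hv0, ?_⟩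
    simp only [if_true, true_or]
    have e1 : k i / 2 = a := by omega
    rw [e1, Finset.prod_range_succ, Finset.prod_range_one, ← mul_pow, ← h0, ← pow_mul, ha]
  · by_cases h3 : i = i1
    · subst h3
      refine ⟨v1, hv1, ?_⟩
      simp only [if_true, or_true]
      have e1 : k i / 2 = b := by omega
      rw [e1, Finset.prod_range_succ, Finset.prod_range_one, ← mul_pow, ← h1, ← pow_mul, hb]
    · refine ⟨1, L.one_mem, ?_⟩
      simp only [h2, h3, or_self]
      simp

end Pool.Agent.Helper568.LM
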